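import Pool.Agent.H25.VT.Spec

set_option autoImplicit false

open MeasureTheory
open scoped ENNReal NNReal SchwartzMap FourierTransform

namespace Pool.Agent.H25.VT.CONV

theorem iter_exp (c : ℂ) (k : ℕ) :
    iteratedDeriv k (fun t : ℝ => Complex.exp (c * t)) = fun t : ℝ => c ^ k * Complex.exp (c * t) := by
  induction k with
  | zero => funext t; simp
  | succ k ih =>
    rw [iteratedDeriv_succ, ih]
    funext t
    have h1 : HasDerivAt (fun t : ℝ => Complex.exp (c * t)) (Complex.exp (c * t) * (c * 1)) t := by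
      have h0 : HasDerivAt (fun t : ℝ => c * (t : ℂ)) (c * 1) t :=
        (Complex.ofRealCLM.hasDerivAt (x := t)).const_mul c
      exact h0.cexp
    rw [(h1.const_mul (c ^ k)).deriv]
    ring

theorem tg_exp : Function.HasTemperateGrowth
    (fun t : ℝ => Complex.exp (2 * Real.pi * Complex.I * t)) := by
  refine ⟨(contDiff_const.mul Complex.ofRealCLM.contDiff).cexp, fun k => ⟨0, ‖(2 * Real.pi * Complex.I : ℂ)‖ ^ k, fun t => ?_⟩⟩
  rw [norm_iteratedFDeriv_eq_norm_iteratedDeriv, iter_exp, norm_mul, norm_pow]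
  have : ‖Complex.exp (2 * Real.pi * Complex.I * t)‖ = 1 := by
    rw [show (2 * Real.pi * Complex.I * t : ℂ) = ((2 * Real.pi * t : ℝ) : ℂ) * Complex.I by
      push_cast; ring]
    exact Complex.norm_exp_ofReal_mul_I _
  rw [this]
  simp

theorem tg_ch {n : ℕ} (x : E n) : Function.HasTemperateGrowth (ch x) := by
  have := tg_exp.comp (Function.hasTemperateGrowth_inner_left x)
  exact this

theorem smul_assoc' {n : ℕ} (x : E n) (a b : 𝓢(E n, ℂ)) :
    SchwartzMap.smulLeftCLM ℂ ((SchwartzMap.smulLeftCLM ℂ (ch x) a : 𝓢(E n, ℂ)) : E n → ℂ) b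
      = SchwartzMap.smulLeftCLM ℂ (ch x) (SchwartzMap.smulLeftCLM ℂ (a : E n → ℂ) b) := by
  ext y
  rw [SchwartzMap.smulLeftCLM_apply_apply (SchwartzMap.hasTemperateGrowth _),
    SchwartzMap.smulLeftCLM_apply_apply (tg_ch x),
    SchwartzMap.smulLeftCLM_apply_apply (tg_ch x),
    SchwartzMap.smulLeftCLM_apply_apply (SchwartzMap.hasTemperateGrowth _)]
  simp only [smul_eq_mul]
  ring

theorem fourier_ch {n : ℕ} (x z : E n) (a : 𝓢(E n, ℂ)) :
    (𝓕 (SchwartzMap.smulLeftCLM ℂ (ch x) a) : 𝓢(E n, ℂ)) z = (𝓕⁻ a : 𝓢(E n, ℂ)) (x - z) := by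
  rw [SchwartzMap.fourier_coe, SchwartzMap.fourierInv_coe, Real.fourier_eq', Real.fourierInv_eq']
  apply integral_congr_ae
  filter_upwards with v
  rw [SchwartzMap.smulLeftCLM_apply_apply (tg_ch x)]
  simp only [smul_eq_mul, ch]
  rw [← mul_assoc, ← Complex.exp_add]
  congr 2
  rw [inner_sub_right]
  push_cast
  ring

theorem conv_id (hEXC : S_EXC) {n : ℕ} (F : 𝓢'(E n, ℂ)) (a b : 𝓢(E n, ℂ)) (x : E n) :
    ∫ z, (𝓕⁻ a : 𝓢(E n, ℂ)) (x - z) * F (SchwartzMap.smulLeftCLM ℂ (ch z) b)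
      = F (SchwartzMap.smulLeftCLM ℂ (ch x) (SchwartzMap.smulLeftCLM ℂ (a : E n → ℂ) b)) := by
  have h := (hEXC n F b).2.2 (𝓕 (SchwartzMap.smulLeftCLM ℂ (ch x) a))
  rw [FourierTransform.fourierInv_fourier_eq, smul_assoc'] at h
  rw [← h]
  apply integral_congr_ae
  filter_upwards with z
  rw [fourier_ch, mul_comm]

theorem main (hEXC : S_EXC) (hALG : S_ALG) : S_CONV := by
  intro n φ ψ hφ hψ f
  obtain ⟨h1, h2⟩ := hALG n φ ψ hφ hψ
  constructor
  · intro j x
    unfold pieceFn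
    simp_rw [conv_id hEXC]
    rw [← map_sum, ← map_sum]
    congr 2
    ext ξ
    rw [h1 j ξ, _root_.sum_apply]
    apply Finset.sum_congr rfl
    intro i _
    rw [SchwartzMap.smulLeftCLM_apply_apply (SchwartzMap.hasTemperateGrowth _), smul_eq_mul]
  · intro i x
    unfold pieceFn
    rw [conv_id hEXC]
    congr 2
    ext ξ
    rw [SchwartzMap.smulLeftCLM_apply_apply (SchwartzMap.hasTemperateGrowth _), smul_eq_mul]
    exact h2 i ξ

end Pool.Agent.H25.VT.CONV
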