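import Pool.Agent.H25.VT.Spec

/-!
# MP_2116eb_an: part FRZ
-/

set_option autoImplicit false

open MeasureTheory
open scoped ENNReal NNReal SchwartzMap FourierTransform

namespace Pool.Agent.H25.VT.Frz

open Pool.Agent.H25.VT

theorem one_le_log (t : ℝ) (ht : 0 ≤ t) : 1 ≤ Real.log (Real.exp 1 + t) := by
  have h : Real.log (Real.exp 1) ≤ Real.log (Real.exp 1 + t) :=
    Real.log_le_log (Real.exp_pos 1) (by linarith)
  rwa [Real.log_exp] at h

theorem osc_le {n : ℕ} {g : E n → ℝ} {c : ℝ}
    (h : ∀ x y : E n, |g x - g y| ≤ c / Real.log (Real.exp 1 + 1 / ‖x - y‖)) (x y : E n) :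
    |g x - g y| * Real.log (Real.exp 1 + 1 / ‖x - y‖) ≤ |c| ∧ |g x - g y| ≤ |c| := by
  have hL : 1 ≤ Real.log (Real.exp 1 + 1 / ‖x - y‖) := one_le_log _ (by positivity)
  have h0 := h x y
  have h1 : |g x - g y| * Real.log (Real.exp 1 + 1 / ‖x - y‖) ≤ c := by
    rwa [le_div_iff₀ (by linarith)] at h0
  have h2 : |g x - g y| * Real.log (Real.exp 1 + 1 / ‖x - y‖) ≤ |c| := le_trans h1 (le_abs_self c)
  refine ⟨h2, ?_⟩
  have h3 : |g x - g y| * 1 ≤ |g x - g y| * Real.log (Real.exp 1 + 1 / ‖x - y‖) :=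
    mul_le_mul_of_nonneg_left hL (abs_nonneg _)
  linarith

theorem main : S_FRZ := by
  rintro n g ⟨-, c, hc⟩
  refine ⟨Real.exp |c|, |c|, ?_, abs_nonneg c, ?_⟩
  · exact Real.one_le_exp (abs_nonneg c)
  intro j x y
  obtain ⟨h1, h2⟩ := osc_le hc x y
  set d := ‖x - y‖ with hd
  set D := |g x - g y| with hD
  have hD0 : 0 ≤ D := abs_nonneg _
  have hd0 : 0 ≤ d := norm_nonneg _
  set L := Real.log (Real.exp 1 + 1 / d) with hLdef
  have h2j : (0 : ℝ) < (2 : ℝ) ^ j := by positivity
  have hbase : (0 : ℝ) < 1 + (2 : ℝ) ^ j * d := by positivity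
  set M := Real.log (1 + (2 : ℝ) ^ j * d) with hM
  have hM0 : 0 ≤ M := Real.log_nonneg (by nlinarith [mul_nonneg h2j.le hd0])
  have key : Real.log 2 * ((j : ℝ) * D) ≤ |c| + M * |c| := by
    rcases hd0.eq_or_lt with h0 | h0
    · have hxy : x = y := by
        have : ‖x - y‖ = 0 := h0.symm
        exact sub_eq_zero.mp (norm_eq_zero.mp this)
      have : D = 0 := by rw [hD, hxy]; simp
      rw [this]
      have := abs_nonneg c
      nlinarith [mul_nonneg hM0 this]
    · have hLM : (j : ℝ) * Real.log 2 ≤ L + M := by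
        have e1 : Real.log (1 / d) ≤ L := by
          apply Real.log_le_log (by positivity)
          have := Real.exp_pos 1
          linarith
        have e2 : Real.log ((2 : ℝ) ^ j * d) ≤ M := by
          apply Real.log_le_log (by positivity)
          linarith
        have e3 : Real.log (1 / d) + Real.log ((2 : ℝ) ^ j * d) = (j : ℝ) * Real.log 2 := by
          rw [← Real.log_mul (by positivity) (by positivity)]
          rw [show 1 / d * ((2 : ℝ) ^ j * d) = (2 : ℝ) ^ j by field_simp]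
          rw [Real.log_pow]
        linarith
      have e4 : (j : ℝ) * Real.log 2 * D ≤ (L + M) * D := mul_le_mul_of_nonneg_right hLM hD0
      have e5 : M * D ≤ M * |c| := mul_le_mul_of_nonneg_left h2 hM0
      nlinarith
  rw [Real.rpow_def_of_pos (by norm_num), Real.rpow_def_of_pos hbase, ← Real.exp_add]
  exact Real.exp_le_exp.mpr key

end Pool.Agent.H25.VT.Frz
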