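import Pool.Agent.H25.VT.Spec

set_option autoImplicit false

open MeasureTheory
open scoped ENNReal NNReal SchwartzMap FourierTransform

namespace Pool.Agent.H25.VT.LIP

theorem main : S_LIP := by
  intro n g h L hL hg
  obtain ⟨⟨hc, c, h1⟩, c', ginf, h2⟩ := hg
  refine ⟨⟨hL.continuous.comp hc, L * c, fun x y => ?_⟩, L * c', h ginf, fun x => ?_⟩
  · have := hL.dist_le_mul (g x) (g y)
    rw [Real.dist_eq, Real.dist_eq] at this
    refine this.trans ?_
    rw [mul_div_assoc]
    exact mul_le_mul_of_nonneg_left (h1 x y) L.2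
  · have := hL.dist_le_mul (g x) ginf
    rw [Real.dist_eq, Real.dist_eq] at this
    refine this.trans ?_
    rw [mul_div_assoc]
    exact mul_le_mul_of_nonneg_left (h2 x) L.2

end Pool.Agent.H25.VT.LIP
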