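import Pool.Agent.H25.VT.Spec

/-!
# MP_2116eb_an: part PW
-/

set_option autoImplicit false

open MeasureTheory
open scoped ENNReal NNReal SchwartzMap FourierTransform

namespace Pool.Agent.H25.VT.Pw

open Pool.Agent.H25.VT

/-- Comparison of the kernels at scale `j` and `i`, `|i - j| ≤ 1`. -/
theorem scale_le {n : ℕ} (j i M : ℕ) (t : ℝ) (m' : ℝ) (hm : m' ≤ M) (ht : 0 ≤ t)
    (hij : i ≤ j + 1) (hji : j ≤ i + 1) :
    (2 : ℝ) ^ (j * n) * (1 + (2 : ℝ) ^ j * t) ^ (-(M : ℝ)) ≤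
      (2 : ℝ) ^ (n + M) * ((2 : ℝ) ^ (i * n) * (1 + (2 : ℝ) ^ i * t) ^ (-m')) := by
  have hbi : (1 : ℝ) ≤ 1 + (2 : ℝ) ^ i * t := by
    have : 0 ≤ (2 : ℝ) ^ i * t := by positivity
    linarith
  have hbj : (1 : ℝ) ≤ 1 + (2 : ℝ) ^ j * t := by
    have : 0 ≤ (2 : ℝ) ^ j * t := by positivity
    linarith
  have h1 : (2 : ℝ) ^ (j * n) ≤ (2 : ℝ) ^ n * (2 : ℝ) ^ (i * n) := by
    rw [← pow_add]
    apply pow_le_pow_right₀ (by norm_num)
    nlinarith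
  have h2 : (1 + (2 : ℝ) ^ i * t) ≤ 2 * (1 + (2 : ℝ) ^ j * t) := by
    have h3 : (2 : ℝ) ^ i ≤ 2 * (2 : ℝ) ^ j := by
      have := pow_le_pow_right₀ (by norm_num : (1 : ℝ) ≤ 2) hij
      rwa [pow_succ, mul_comm] at this
    nlinarith
  have h4 : (1 + (2 : ℝ) ^ j * t) ^ (-(M : ℝ)) ≤
      (2 : ℝ) ^ M * (1 + (2 : ℝ) ^ i * t) ^ (-(M : ℝ)) := by
    rw [Real.rpow_neg (by linarith), Real.rpow_neg (by linarith), Real.rpow_natCast,
      Real.rpow_natCast]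
    have h5 : (1 + (2 : ℝ) ^ i * t) ^ M ≤ 2 ^ M * (1 + (2 : ℝ) ^ j * t) ^ M := by
      rw [← mul_pow]
      exact pow_le_pow_left₀ (by linarith) h2 M
    have h6 : (0 : ℝ) < (1 + (2 : ℝ) ^ j * t) ^ M := by positivity
    have h7 : (0 : ℝ) < (1 + (2 : ℝ) ^ i * t) ^ M := by positivity
    rw [← div_eq_mul_inv, inv_eq_one_div, div_le_div_iff₀ h6 h7]
    linarith
  have h8 : (1 + (2 : ℝ) ^ i * t) ^ (-(M : ℝ)) ≤ (1 + (2 : ℝ) ^ i * t) ^ (-m') :=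
    Real.rpow_le_rpow_of_exponent_le hbi (by linarith)
  calc (2 : ℝ) ^ (j * n) * (1 + (2 : ℝ) ^ j * t) ^ (-(M : ℝ))
      ≤ ((2 : ℝ) ^ n * (2 : ℝ) ^ (i * n)) * ((2 : ℝ) ^ M * (1 + (2 : ℝ) ^ i * t) ^ (-m')) := by
        gcongr
        exact h4.trans (by gcongr)
    _ = _ := by rw [pow_add]; ring

theorem sum_rpow_le {ι : Type*} (s : Finset ι) (a : ι → ℝ≥0∞) (r : ℝ) (hr : 0 < r) (hr1 : r ≤ 1) :
    (∑ i ∈ s, a i) ^ r ≤ ∑ i ∈ s, a i ^ r := by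
  classical
  induction s using Finset.induction_on with
  | empty => simp [hr]
  | insert i s hi ih =>
    rw [Finset.sum_insert hi, Finset.sum_insert hi]
    calc (a i + ∑ x ∈ s, a x) ^ r ≤ a i ^ r + (∑ x ∈ s, a x) ^ r :=
          ENNReal.rpow_add_le_add_rpow _ _ hr.le hr1
      _ ≤ _ := by gcongr

theorem main (hEXC : S_EXC) (hCONV : S_CONV) (hKB : S_KB) (hRT : S_RT) : S_PW := by
  intro n φ ψ r m hn hφ hψ hr hr1 hm
  obtain ⟨A, hA1, hA2⟩ := hKB n φ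
  obtain ⟨C, hC, hrt⟩ := hRT n r m A hn hr hr1 hm
  obtain ⟨M, hM⟩ := exists_nat_ge (m / r + n + 1)
  have hA0 : 0 ≤ |A M| := abs_nonneg _
  set D : ℝ≥0∞ := ENNReal.ofReal (|A M| * (2 : ℝ) ^ (n + M)) with hD
  refine ⟨D ^ r * C, ENNReal.mul_ne_top
    (ENNReal.rpow_ne_top_of_nonneg hr.le ENNReal.ofReal_ne_top) hC, ?_⟩
  intro f j x
  obtain ⟨hc1, hc2⟩ := hCONV n φ ψ hφ hψ f
  have step1 : ‖pieceFn φ f j x‖ₑ ≤ ∑ i ∈ Finset.Icc (j - 1) (j + 1),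
      D * cv i (m / r + n + 1) (fun z => ‖pieceFn ψ f i z‖ₑ) x := by
    rw [hc1 j x]
    refine (enorm_sum_le _ _).trans (Finset.sum_le_sum fun i hi => ?_)
    rw [Finset.mem_Icc] at hi
    refine (enorm_integral_le_lintegral_enorm _).trans ?_
    unfold cv
    rw [← lintegral_const_mul' _ _ ENNReal.ofReal_ne_top]
    refine lintegral_mono fun z => ?_
    simp only [enorm_mul]
    rw [← mul_assoc]
    refine mul_le_mul' ?_ le_rfl
    unfold eta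
    rw [← ENNReal.ofReal_mul (by positivity), ← ofReal_norm]
    apply ENNReal.ofReal_le_ofReal
    refine (hA1 j M (x - z)).trans ?_
    have hsc := scale_le (n := n) j i M ‖x - z‖ (m / r + n + 1) hM (norm_nonneg _) hi.2 (by omega)
    calc A M * ((2 : ℝ) ^ (j * n) * (1 + (2 : ℝ) ^ j * ‖x - z‖) ^ (-(M : ℝ)))
        ≤ |A M| * ((2 : ℝ) ^ (j * n) * (1 + (2 : ℝ) ^ j * ‖x - z‖) ^ (-(M : ℝ))) := by
          apply mul_le_mul_of_nonneg_right (le_abs_self _)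
          positivity
      _ ≤ |A M| * ((2 : ℝ) ^ (n + M) * ((2 : ℝ) ^ (i * n) *
            (1 + (2 : ℝ) ^ i * ‖x - z‖) ^ (-(m / r + n + 1)))) := by
          gcongr
      _ = _ := by ring
  calc ‖pieceFn φ f j x‖ₑ ^ r
      ≤ (∑ i ∈ Finset.Icc (j - 1) (j + 1),
          D * cv i (m / r + n + 1) (fun z => ‖pieceFn ψ f i z‖ₑ) x) ^ r :=
        ENNReal.rpow_le_rpow step1 hr.le
    _ ≤ ∑ i ∈ Finset.Icc (j - 1) (j + 1),
          (D * cv i (m / r + n + 1) (fun z => ‖pieceFn ψ f i z‖ₑ) x) ^ r :=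
        sum_rpow_le _ _ r hr hr1
    _ ≤ ∑ i ∈ Finset.Icc (j - 1) (j + 1),
          D ^ r * C * cv i m (fun z => ‖pieceFn ψ f i z‖ₑ ^ r) x := by
        refine Finset.sum_le_sum fun i _ => ?_
        rw [ENNReal.mul_rpow_of_nonneg _ _ hr.le, mul_assoc]
        gcongr
        obtain ⟨hcont, hgrow, -⟩ := hEXC n (𝓕 f) (res ψ i)
        exact hrt i (fun y => (𝓕⁻ (dil φ (i + 1)) : 𝓢(E n, ℂ)) y) (pieceFn ψ f i)
          (SchwartzMap.continuous _) hcont (fun M x => hA2 i M x) hgrow (fun x => hc2 i x) x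
    _ = _ := by rw [Finset.mul_sum]

end Pool.Agent.H25.VT.Pw
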