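import Pool.Agent.H25.VT.Spec

set_option autoImplicit false

open MeasureTheory
open scoped ENNReal NNReal SchwartzMap FourierTransform

namespace Pool.Agent.H25.VT.REP

theorem smul_comm' {n : ℕ} (a b : 𝓢(E n, ℂ)) :
    SchwartzMap.smulLeftCLM ℂ (a : E n → ℂ) b = SchwartzMap.smulLeftCLM ℂ (b : E n → ℂ) a := by
  ext x
  rw [SchwartzMap.smulLeftCLM_apply_apply a.hasTemperateGrowth,
    SchwartzMap.smulLeftCLM_apply_apply b.hasTemperateGrowth, smul_eq_mul, smul_eq_mul, mul_comm]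

theorem main (hEXC : S_EXC) : S_REP := by
  intro n φ f j
  obtain ⟨h1, h2, h3⟩ := hEXC n (𝓕 f) (res φ j)
  refine ⟨h1, h2, fun u => ?_⟩
  have := h3 u
  unfold pieceFn
  rw [this]
  unfold piece
  rw [TemperedDistribution.fourierMultiplierCLM_apply_apply, smul_comm']
  rfl

end Pool.Agent.H25.VT.REP
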