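import Pool.Agent.H25.VT.Spec
import Pool.Agent.H25.VT.Frz

/-!
# MP_2116eb_an: part WT
-/

set_option autoImplicit false

open MeasureTheory
open scoped ENNReal NNReal SchwartzMap FourierTransform

namespace Pool.Agent.H25.VT.Wt

open Pool.Agent.H25.VT

theorem bound {n : ℕ} {s : E n → ℝ} (hs : LogHolderLoc s) : ∃ S : ℝ, 0 ≤ S ∧ ∀ x, |s x| ≤ S := by
  obtain ⟨-, c, hc⟩ := hs
  refine ⟨|s 0| + |c|, by positivity, fun x => ?_⟩
  have h := (Frz.osc_le hc x 0).2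
  have h2 : |s x| ≤ |s x - s 0| + |s 0| := by
    have := abs_add_le (s x - s 0) (s 0)
    simpa using this
  linarith

theorem eta_mul {n : ℕ} (j : ℕ) (m R : ℝ) (x : E n) :
    eta j m x * ENNReal.ofReal ((1 + (2 : ℝ) ^ j * ‖x‖) ^ R) = eta j (m - R) x := by
  unfold eta
  have hb : (0 : ℝ) < 1 + (2 : ℝ) ^ j * ‖x‖ := by positivity
  rw [← ENNReal.ofReal_mul (by positivity)]
  congr 1
  rw [mul_assoc, ← Real.rpow_add hb]
  congr 2
  ring

theorem main : S_WT := by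
  intro n s r hs hr
  obtain ⟨S, hS0, hS⟩ := bound hs
  obtain ⟨C, R, hC, hR, hfrz⟩ := Frz.main n s hs
  have hC0 : 0 < C := by linarith
  refine ⟨ENNReal.ofReal (((2 : ℝ) ^ S * C) ^ r), R * r, ENNReal.ofReal_ne_top,
    mul_nonneg hR hr.le, ?_⟩
  intro m j i g x hij
  have hji : |(j : ℝ) - i| ≤ 1 := by
    rw [Finset.mem_Icc] at hij
    have h1 : (j : ℝ) ≤ i + 1 := by
      have : j ≤ i + 1 := by omega
      exact_mod_cast this
    have h2 : (i : ℝ) ≤ j + 1 := by exact_mod_cast hij.2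
    rw [abs_le]; constructor <;> linarith
  unfold cv
  rw [← lintegral_const_mul' _ _ (by
      apply ENNReal.rpow_ne_top_of_nonneg hr.le ENNReal.ofReal_ne_top),
    ← lintegral_const_mul' _ _ ENNReal.ofReal_ne_top]
  refine lintegral_mono fun y => ?_
  show _ ≤ ENNReal.ofReal (((2 : ℝ) ^ S * C) ^ r) *
      (eta i (m - R * r) (x - y) * (ENNReal.ofReal (2 ^ ((i : ℝ) * s y)) ^ r * g y))
  rw [ENNReal.ofReal_rpow_of_nonneg (by positivity) hr.le,
    ENNReal.ofReal_rpow_of_nonneg (by positivity) hr.le]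
  have hb : (0 : ℝ) < 1 + (2 : ℝ) ^ i * ‖x - y‖ := by positivity
  have key : ((2 : ℝ) ^ ((j : ℝ) * s x)) ≤
      ((2 : ℝ) ^ S * C) * (1 + (2 : ℝ) ^ i * ‖x - y‖) ^ R * (2 : ℝ) ^ ((i : ℝ) * s y) := by
    have e1 : (j : ℝ) * s x ≤ S + ((i : ℝ) * |s x - s y| + (i : ℝ) * s y) := by
      have h3 : ((j : ℝ) - i) * s x ≤ S := by
        calc ((j : ℝ) - i) * s x ≤ |((j : ℝ) - i) * s x| := le_abs_self _
          _ = |(j : ℝ) - i| * |s x| := abs_mul _ _
          _ ≤ 1 * S := mul_le_mul hji (hS x) (abs_nonneg _) zero_le_one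
          _ = S := one_mul S
      have h4 : (i : ℝ) * (s x - s y) ≤ (i : ℝ) * |s x - s y| :=
        mul_le_mul_of_nonneg_left (le_abs_self _) (by positivity)
      nlinarith
    calc (2 : ℝ) ^ ((j : ℝ) * s x)
        ≤ (2 : ℝ) ^ (S + ((i : ℝ) * |s x - s y| + (i : ℝ) * s y)) :=
          Real.rpow_le_rpow_of_exponent_le (by norm_num) e1
      _ = (2 : ℝ) ^ S * ((2 : ℝ) ^ ((i : ℝ) * |s x - s y|) * (2 : ℝ) ^ ((i : ℝ) * s y)) := by
          rw [Real.rpow_add (by norm_num), Real.rpow_add (by norm_num)]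
      _ ≤ (2 : ℝ) ^ S * ((C * (1 + (2 : ℝ) ^ i * ‖x - y‖) ^ R) * (2 : ℝ) ^ ((i : ℝ) * s y)) := by
          have := hfrz i x y
          gcongr
      _ = _ := by ring
  have key2 : ENNReal.ofReal (((2 : ℝ) ^ ((j : ℝ) * s x)) ^ r) ≤
      ENNReal.ofReal (((2 : ℝ) ^ S * C) ^ r) *
        ENNReal.ofReal ((1 + (2 : ℝ) ^ i * ‖x - y‖) ^ (R * r)) *
          ENNReal.ofReal (((2 : ℝ) ^ ((i : ℝ) * s y)) ^ r) := by
    rw [← ENNReal.ofReal_mul (by positivity), ← ENNReal.ofReal_mul (by positivity)]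
    apply ENNReal.ofReal_le_ofReal
    have h5 := Real.rpow_le_rpow (by positivity) key hr.le
    rw [Real.mul_rpow (by positivity) (by positivity), Real.mul_rpow (by positivity) (by positivity),
      ← Real.rpow_mul hb.le] at h5
    exact h5
  calc ENNReal.ofReal (((2 : ℝ) ^ ((j : ℝ) * s x)) ^ r) * (eta i m (x - y) * g y)
      ≤ (ENNReal.ofReal (((2 : ℝ) ^ S * C) ^ r) *
        ENNReal.ofReal ((1 + (2 : ℝ) ^ i * ‖x - y‖) ^ (R * r)) *
          ENNReal.ofReal (((2 : ℝ) ^ ((i : ℝ) * s y)) ^ r)) * (eta i m (x - y) * g y) := by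
        gcongr
    _ = ENNReal.ofReal (((2 : ℝ) ^ S * C) ^ r) *
          ((eta i m (x - y) * ENNReal.ofReal ((1 + (2 : ℝ) ^ i * ‖x - y‖) ^ (R * r))) *
            (ENNReal.ofReal (((2 : ℝ) ^ ((i : ℝ) * s y)) ^ r) * g y)) := by ring
    _ = _ := by rw [eta_mul]

end Pool.Agent.H25.VT.Wt
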