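import Pool.Agent.H25.VT.Fin
import Pool.Agent.H25.VT.Lip
import Pool.Agent.H25.VT.Rep
import Pool.Agent.H25.VT.Conv
import Pool.Agent.H25.VT.Frz
import Pool.Agent.H25.VT.Wt
import Pool.Agent.H25.VT.Pw
import Pool.Agent.Helper3.VT.ALG
import Pool.Agent.Helper3.VT.KER
import Pool.Agent.Helper3.VT.LQ
import Pool.Agent.Helper3.VT.MEAS
import Pool.Agent.Helper51.VT.VM1
import Pool.Agent.Helper76.VT.EXC
import Pool.Agent.Helper76.VT.HL
import Pool.Agent.Helper12.VT.DUAL
import Pool.Agent.Helper12.VT.RT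
import Pool.Agent.Helper16.VT.CONJ
import Pool.Agent.Helper16.VT.PINF
import Pool.Agent.Helper29.VT.INT
import Pool.Agent.Helper29.VT.MAIN
import Pool.Agent.Helper29.VT.VM
import Pool.Agent.Helper71.VT.DEC
import Pool.Agent.Helper71.VT.EXPO
import Pool.Agent.Helper71.VT.KB
import Pool.Agent.Helper71.VT.VM2

/-!
# MP_2116eb_an: assembly
-/

set_option autoImplicit false

open MeasureTheory
open scoped ENNReal NNReal SchwartzMap FourierTransform

namespace Pool.Agent.H25.VT.Asm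

open Pool.Agent.H25.VT

/-- Assembly of the parts. -/
theorem fin_of : S_FIN ∧ S_REP := by
  have hALG : S_ALG := Pool.Agent.Helper3.VT.ALG.main
  have hKER : S_KER := Pool.Agent.Helper3.VT.KER.main
  have hLQ : S_LQ := Pool.Agent.Helper3.VT.LQ.main
  have hMEAS : S_MEAS := Pool.Agent.Helper3.VT.MEAS.main
  have hHL : S_HL := Pool.Agent.Helper76.VT.HL.main hMEAS
  have hVM1 : S_VM1 := Pool.Agent.Helper51.VT.main
  have hEXC : S_EXC := Pool.Agent.Helper76.VT.EXC.main
  have hVM : S_VM := Pool.Agent.Helper29.VT.VM.main hMEAS hHL hVM1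
    Pool.Agent.Helper71.VT.VM2.main Pool.Agent.Helper16.VT.mainPINF
  have hDUAL : S_DUAL := Pool.Agent.Helper12.VT.DUAL.main hVM Pool.Agent.Helper16.VT.mainCONJ
    hKER hMEAS
  have hMAIN : S_MAIN := Pool.Agent.Helper29.VT.MAIN.main hMEAS hVM hDUAL
    (Pool.Agent.Helper29.VT.INT.main Frz.main) Pool.Agent.Helper71.VT.DEC.main hKER hLQ
  have hPW : S_PW := Pw.main hEXC (CONV.main hEXC hALG) Pool.Agent.Helper71.VT.KB.main
    Pool.Agent.Helper12.VT.RT.main
  exact ⟨FIN.main hMAIN hPW Wt.main hLQ Pool.Agent.Helper71.VT.EXPO.main hEXC LIP.main,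
    REP.main hEXC⟩

end Pool.Agent.H25.VT.Asm
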