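import Mathlib

/-!
# MP_2116eb_an: definitions

Variable exponent Triebel-Lizorkin spaces on `E n = ℝⁿ` (Euclidean norm).
-/

set_option autoImplicit false

open MeasureTheory
open scoped ENNReal SchwartzMap FourierTransform

namespace Pool.Agent.H25.VT

/-- Euclidean `n`-space. -/
abbrev E (n : ℕ) : Type := EuclideanSpace ℝ (Fin n)

/-- `g` is locally log-Hölder continuous:
`|g x - g y| ≤ c / log (e + 1 / |x - y|)` for all `x, y`. -/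
def LogHolderLoc {n : ℕ} (g : E n → ℝ) : Prop :=
  Continuous g ∧ ∃ c : ℝ, ∀ x y : E n,
    |g x - g y| ≤ c / Real.log (Real.exp 1 + 1 / ‖x - y‖)

/-- `g` is globally log-Hölder continuous: locally, and
`|g x - g∞| ≤ c / log (e + |x|)` for some real `g∞`. -/
def LogHolder {n : ℕ} (g : E n → ℝ) : Prop :=
  LogHolderLoc g ∧ ∃ c ginf : ℝ, ∀ x : E n, |g x - ginf| ≤ c / Real.log (Real.exp 1 + ‖x‖)

/-- The modular of `L_{p(·)}` (for functions with values in `[0,∞]`):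
`∫_{p < ∞} f^p + esssup_{p = ∞} f`. -/
noncomputable def modular {n : ℕ} (p : E n → ℝ≥0∞) (f : E n → ℝ≥0∞) : ℝ≥0∞ :=
  (∫⁻ x in {x | p x < ∞}, f x ^ (p x).toReal)
    + essSup (Set.indicator {x | p x = ∞} f) volume

/-- The quasi-norm of `L_{p(·)}`: `inf {l > 0 : modular (f / l) ≤ 1}` (`∞` if there is no such
finite `l`). -/
noncomputable def lnorm {n : ℕ} (p : E n → ℝ≥0∞) (f : E n → ℝ≥0∞) : ℝ≥0∞ :=
  sInf {l : ℝ≥0∞ | 0 < l ∧ l < ∞ ∧ modular p (fun x => f x / l) ≤ 1}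

/-- The quasi-norm of `ℓ_q`, `0 < q ≤ ∞`. -/
noncomputable def lq (q : ℝ≥0∞) (a : ℕ → ℝ≥0∞) : ℝ≥0∞ :=
  if q = ∞ then ⨆ j, a j else (∑' j, a j ^ q.toReal) ^ (1 / q.toReal)

/-- Admissible generators of a resolution of unity. -/
def Admissible {n : ℕ} (φ : 𝓢(E n, ℂ)) : Prop :=
  (∀ x : E n, ‖x‖ ≤ 1 → φ x = 1) ∧ ∀ x : E n, 2 < ‖x‖ → φ x = 0

/-- Multiplication by `2^(-k)` as a linear equivalence. -/
noncomputable def dilE (n k : ℕ) : E n ≃L[ℝ] E n :=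
  ContinuousLinearEquiv.smulLeft (Units.mk0 ((2 : ℝ)⁻¹ ^ k) (by positivity))

theorem dilE_apply (n k : ℕ) (x : E n) : dilE n k x = (2 : ℝ)⁻¹ ^ k • x := rfl

/-- `dil φ k (x) = φ (2^(-k) x)`. -/
noncomputable def dil {n : ℕ} (φ : 𝓢(E n, ℂ)) (k : ℕ) : 𝓢(E n, ℂ) :=
  SchwartzMap.compCLMOfContinuousLinearEquiv ℂ (dilE n k) φ

theorem dil_apply {n : ℕ} (φ : 𝓢(E n, ℂ)) (k : ℕ) (x : E n) :
    dil φ k x = φ ((2 : ℝ)⁻¹ ^ k • x) := rfl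

/-- `φ_0 = φ` and `φ_j (x) = φ (2^(-j) x) - φ (2^(1-j) x)` for `j ≥ 1`. -/
noncomputable def res {n : ℕ} (φ : 𝓢(E n, ℂ)) : ℕ → 𝓢(E n, ℂ)
  | 0 => φ
  | k + 1 => dil φ (k + 1) - dil φ k

/-- The character `ξ ↦ exp (2 π i ⟨ξ, x⟩)`. -/
noncomputable def ch {n : ℕ} (x : E n) (ξ : E n) : ℂ :=
  Complex.exp (2 * Real.pi * Complex.I * (inner ℝ ξ x : ℝ))

/-- The tempered distribution `(φ_j f^)^∨`. -/
noncomputable def piece {n : ℕ} (φ : 𝓢(E n, ℂ)) (f : 𝓢'(E n, ℂ)) (j : ℕ) : 𝓢'(E n, ℂ) :=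
  TemperedDistribution.fourierMultiplierCLM ℂ (res φ j : E n → ℂ) f

/-- The function `(φ_j f^)^∨ : x ↦ f^ (φ_j exp (2 π i ⟨·, x⟩))`. -/
noncomputable def pieceFn {n : ℕ} (φ : 𝓢(E n, ℂ)) (f : 𝓢'(E n, ℂ)) (j : ℕ) (x : E n) : ℂ :=
  (𝓕 f) (SchwartzMap.smulLeftCLM ℂ (ch x) (res φ j))

/-- The function `g` is continuous, polynomially bounded and represents the tempered
distribution `D`. -/
def Represents {n : ℕ} (g : E n → ℂ) (D : 𝓢'(E n, ℂ)) : Prop :=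
  Continuous g ∧ (∃ (C : ℝ) (N : ℕ), ∀ x, ‖g x‖ ≤ C * (1 + ‖x‖) ^ N) ∧
    ∀ u : 𝓢(E n, ℂ), D u = ∫ x, g x * u x

/-- The quasi-norm of `f` in `F^{s(·)}_{p(·),q(·)}` built from `φ`. -/
noncomputable def tl {n : ℕ} (p q : E n → ℝ≥0∞) (s : E n → ℝ) (φ : 𝓢(E n, ℂ))
    (f : 𝓢'(E n, ℂ)) : ℝ≥0∞ :=
  lnorm p (fun x => lq (q x) (fun j => ENNReal.ofReal (2 ^ ((j : ℝ) * s x)) * ‖pieceFn φ f j x‖ₑ))

end Pool.Agent.H25.VT
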