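import Pool.Agent.H25.VT.Stmt
import Pool.Agent.H25.VT.Asm

/-!
# MP_2116eb_an: the definitions of the final statement agree with those of the proof
-/

set_option autoImplicit false

open MeasureTheory
open scoped ENNReal NNReal SchwartzMap FourierTransform

namespace Pool.Agent.H25.VT.Bridge

open Pool.Agent.H25.VT

theorem dil_eq {n : ℕ} (φ : 𝓢(E n, ℂ)) (k : ℕ) : St.dil (V := E n) φ k = dil φ k := rfl

theorem res_eq {n : ℕ} (φ : 𝓢(E n, ℂ)) (j : ℕ) : St.res (V := E n) φ j = res φ j := by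
  cases j with
  | zero => rfl
  | succ k => rfl

theorem ch_eq {n : ℕ} (x : E n) : St.ch (V := E n) x = ch x := rfl

theorem pieceFn_eq {n : ℕ} (φ : 𝓢(E n, ℂ)) (f : 𝓢'(E n, ℂ)) (j : ℕ) :
    St.pieceFn (V := E n) φ f j = pieceFn φ f j := by
  funext x
  unfold St.pieceFn pieceFn
  rw [res_eq, ch_eq]

theorem tl_eq {n : ℕ} (p q : E n → ℝ≥0∞) (s : E n → ℝ) (φ : 𝓢(E n, ℂ)) (f : 𝓢'(E n, ℂ)) :
    St.tl (V := E n) p q s φ f = tl p q s φ f := by
  have h : St.pieceFn (V := E n) φ f = pieceFn φ f := funext (pieceFn_eq φ f)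
  unfold St.tl tl
  rw [h]
  rfl

theorem piece_eq {n : ℕ} (φ : 𝓢(E n, ℂ)) (f : 𝓢'(E n, ℂ)) (j : ℕ) (u : 𝓢(E n, ℂ)) :
    St.piece (V := E n) φ f j u = piece φ f j u := by
  unfold St.piece piece
  rw [TemperedDistribution.fourierMultiplierCLM_apply_apply, res_eq]
  rfl

end Pool.Agent.H25.VT.Bridge
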