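import Pool.Agent.H25.VT.Spec
import Pool.Agent.H25.VT.Conv

/-!
# MP_2116eb_an: part EXC
-/

set_option autoImplicit false

open MeasureTheory
open scoped ENNReal NNReal SchwartzMap FourierTransform LineDeriv BoundedContinuousFunction

namespace Pool.Agent.H25.VT.Exc

open Pool.Agent.H25.VT
open SchwartzMap

variable {n : ℕ}

/-- Good continuous linear maps: the statement of EXC for maps with values in a Banach space. -/
def Good {X : Type} [NormedAddCommGroup X] [NormedSpace ℂ X] (T : 𝓢(E n, ℂ) →L[ℂ] X) : Prop :=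
  ∀ b : 𝓢(E n, ℂ),
    Continuous (fun x : E n => T (smulLeftCLM ℂ (ch x) b)) ∧
    (∃ (C : ℝ) (N : ℕ), ∀ x : E n, ‖T (smulLeftCLM ℂ (ch x) b)‖ ≤ C * (1 + ‖x‖) ^ N) ∧
    ∀ u : 𝓢(E n, ℂ), ∫ x, u x • T (smulLeftCLM ℂ (ch x) b)
      = T (smulLeftCLM ℂ ((𝓕⁻ u : 𝓢(E n, ℂ)) : E n → ℂ) b)

theorem integ {X : Type} [NormedAddCommGroup X] [NormedSpace ℂ X] {G : E n → X}
    (hc : Continuous G) {C : ℝ} {N : ℕ} (hg : ∀ x, ‖G x‖ ≤ C * (1 + ‖x‖) ^ N) (u : 𝓢(E n, ℂ)) :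
    Integrable (fun x => u x • G x) := by
  have hC : 0 ≤ C := by
    have := (norm_nonneg _).trans (hg 0)
    simpa using this
  have h1 : Integrable (fun x : E n => C * (2 ^ (N - 1) * (1 ^ N * ‖u x‖ + ‖x‖ ^ N * ‖u x‖))) := by
    apply Integrable.const_mul
    apply Integrable.const_mul
    apply Integrable.add
    · simpa using u.integrable.norm
    · exact u.integrable_pow_mul volume N
  refine h1.mono (u.continuous.smul hc).aestronglyMeasurable ?_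
  filter_upwards with x
  rw [norm_smul]
  have h2 : (1 + ‖x‖) ^ N ≤ 2 ^ (N - 1) * (1 ^ N + ‖x‖ ^ N) :=
    add_pow_le zero_le_one (norm_nonneg x) N
  have h3 : 0 ≤ C * (2 ^ (N - 1) * (1 ^ N * ‖u x‖ + ‖x‖ ^ N * ‖u x‖)) := by positivity
  rw [Real.norm_of_nonneg h3]
  calc ‖u x‖ * ‖G x‖ ≤ ‖u x‖ * (C * (1 + ‖x‖) ^ N) := by gcongr; exact hg x
    _ ≤ ‖u x‖ * (C * (2 ^ (N - 1) * (1 ^ N + ‖x‖ ^ N))) := by gcongr
    _ = _ := by ring

theorem Good.integ {X : Type} [NormedAddCommGroup X] [NormedSpace ℂ X]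
    {T : 𝓢(E n, ℂ) →L[ℂ] X} (hT : Good T) (b u : 𝓢(E n, ℂ)) :
    Integrable (fun x => u x • T (smulLeftCLM ℂ (ch x) b)) := by
  obtain ⟨h1, ⟨C, N, h2⟩, -⟩ := hT b
  exact Exc.integ h1 h2 u

theorem norm_ch (x ξ : E n) : ‖ch x ξ‖ = 1 := by
  unfold ch
  rw [show (2 * Real.pi * Complex.I * (inner ℝ ξ x : ℝ) : ℂ)
    = ((2 * Real.pi * (inner ℝ ξ x : ℝ) : ℝ) : ℂ) * Complex.I by push_cast; ring]
  exact Complex.norm_exp_ofReal_mul_I _

theorem ch_sub (x y ξ : E n) : ‖ch x ξ - ch y ξ‖ ≤ 2 * Real.pi * (‖ξ‖ * ‖x - y‖) := by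
  have h : ch x ξ - ch y ξ = ch y ξ *
      (Complex.exp (Complex.I * ((2 * Real.pi * (inner ℝ ξ (x - y) : ℝ) : ℝ) : ℂ)) - 1) := by
    unfold ch
    rw [mul_sub, ← Complex.exp_add, mul_one]
    congr 2
    rw [inner_sub_right]
    push_cast
    ring
  rw [h, norm_mul, norm_ch, one_mul]
  refine (Real.norm_exp_I_mul_ofReal_sub_one_le).trans ?_
  rw [norm_mul, Real.norm_of_nonneg (by positivity)]
  gcongr
  exact norm_inner_le_norm ξ (x - y)

theorem good_bcf : Good (toBoundedContinuousFunctionCLM ℂ (E n) ℂ) := by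
  intro b
  have hcont : Continuous (fun x : E n =>
      toBoundedContinuousFunctionCLM ℂ (E n) ℂ (smulLeftCLM ℂ (ch x) b)) := by
    have hL : LipschitzWith (Real.toNNReal (2 * Real.pi * SchwartzMap.seminorm ℂ 1 0 b))
        (fun x : E n => toBoundedContinuousFunctionCLM ℂ (E n) ℂ (smulLeftCLM ℂ (ch x) b)) := by
      refine LipschitzWith.of_dist_le_mul fun x y => ?_
      rw [Real.coe_toNNReal _ (by positivity), dist_eq_norm, dist_eq_norm,
        BoundedContinuousFunction.norm_le (by positivity)]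
      intro ξ
      simp only [BoundedContinuousFunction.coe_sub, Pi.sub_apply,
        toBoundedContinuousFunctionCLM_apply]
      rw [smulLeftCLM_apply_apply (CONV.tg_ch x), smulLeftCLM_apply_apply (CONV.tg_ch y),
        smul_eq_mul, smul_eq_mul, ← sub_mul, norm_mul]
      have h1 : ‖ξ‖ * ‖b ξ‖ ≤ SchwartzMap.seminorm ℂ 1 0 b := by
        have := norm_pow_mul_le_seminorm ℂ b 1 ξ
        simpa using this
      calc ‖ch x ξ - ch y ξ‖ * ‖b ξ‖ ≤ (2 * Real.pi * (‖ξ‖ * ‖x - y‖)) * ‖b ξ‖ := by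
            gcongr; exact ch_sub x y ξ
        _ = 2 * Real.pi * (‖ξ‖ * ‖b ξ‖) * ‖x - y‖ := by ring
        _ ≤ 2 * Real.pi * SchwartzMap.seminorm ℂ 1 0 b * ‖x - y‖ := by gcongr
    exact hL.continuous
  have hgrow : ∀ x : E n, ‖toBoundedContinuousFunctionCLM ℂ (E n) ℂ (smulLeftCLM ℂ (ch x) b)‖
      ≤ SchwartzMap.seminorm ℂ 0 0 b * (1 + ‖x‖) ^ 0 := by
    intro x
    rw [pow_zero, mul_one, BoundedContinuousFunction.norm_le (by positivity)]
    intro ξ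
    rw [toBoundedContinuousFunctionCLM_apply, smulLeftCLM_apply_apply (CONV.tg_ch x),
      norm_smul, norm_ch, one_mul]
    exact norm_le_seminorm ℂ b ξ
  refine ⟨hcont, ⟨_, 0, hgrow⟩, fun u => ?_⟩
  have hi := Exc.integ hcont hgrow u
  ext ξ
  have h1 := (BoundedContinuousFunction.evalCLM ℂ ξ).integral_comp_comm hi
  have h2 : (∫ x, u x • toBoundedContinuousFunctionCLM ℂ (E n) ℂ (smulLeftCLM ℂ (ch x) b)) ξ
      = ∫ x, u x * (ch x ξ * b ξ) := by
    refine Eq.trans h1.symm ?_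
    apply integral_congr_ae
    filter_upwards with x
    show u x • (smulLeftCLM ℂ (ch x) b) ξ = _
    rw [smulLeftCLM_apply_apply (CONV.tg_ch x)]
    rfl
  rw [h2, toBoundedContinuousFunctionCLM_apply,
    smulLeftCLM_apply_apply (SchwartzMap.hasTemperateGrowth _), smul_eq_mul,
    SchwartzMap.fourierInv_coe, Real.fourierInv_eq', ← integral_mul_const]
  apply integral_congr_ae
  filter_upwards with x
  simp only [smul_eq_mul, ch]
  rw [real_inner_comm x ξ]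
  rw [show (((2 * Real.pi * (inner ℝ x ξ : ℝ) : ℝ) : ℂ) * Complex.I)
    = 2 * Real.pi * Complex.I * (inner ℝ x ξ : ℝ) by push_cast; ring]
  ring

theorem smul_comm2 {g h : E n → ℂ} (hg : g.HasTemperateGrowth) (hh : h.HasTemperateGrowth)
    (b : 𝓢(E n, ℂ)) : smulLeftCLM ℂ g (smulLeftCLM ℂ h b) = smulLeftCLM ℂ h (smulLeftCLM ℂ g b) := by
  ext x
  rw [smulLeftCLM_apply_apply hg, smulLeftCLM_apply_apply hh, smulLeftCLM_apply_apply hh,
    smulLeftCLM_apply_apply hg, smul_comm]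

theorem Good.weight {X : Type} [NormedAddCommGroup X] [NormedSpace ℂ X]
    {T : 𝓢(E n, ℂ) →L[ℂ] X} (hT : Good T) {w : E n → ℂ} (hw : w.HasTemperateGrowth) :
    Good (T ∘L smulLeftCLM ℂ w) := by
  intro b
  obtain ⟨h1, h2, h3⟩ := hT (smulLeftCLM ℂ w b)
  refine ⟨?_, ?_, fun u => ?_⟩
  · refine h1.congr fun x => ?_
    rw [ContinuousLinearMap.comp_apply, smul_comm2 (CONV.tg_ch x) hw]
  · obtain ⟨C, N, h⟩ := h2
    refine ⟨C, N, fun x => ?_⟩
    rw [ContinuousLinearMap.comp_apply, smul_comm2 hw (CONV.tg_ch x)]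
    exact h x
  · rw [ContinuousLinearMap.comp_apply, smul_comm2 hw (SchwartzMap.hasTemperateGrowth _), ← h3 u]
    apply integral_congr_ae
    filter_upwards with x
    rw [ContinuousLinearMap.comp_apply, smul_comm2 hw (CONV.tg_ch x)]

theorem hasFDerivAt_ch (x ξ : E n) : HasFDerivAt (𝕜 := ℝ) (ch x)
    (ch x ξ • ((2 * Real.pi * Complex.I) • (Complex.ofRealCLM ∘L (innerSL ℝ x)))) ξ := by
  have h1 : HasFDerivAt (𝕜 := ℝ) (fun ξ : E n => (inner ℝ ξ x : ℝ)) (innerSL ℝ x) ξ := by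
    have := (innerSL ℝ x).hasFDerivAt (x := ξ)
    refine this.congr_of_eventuallyEq ?_
    filter_upwards with y
    simp [real_inner_comm]
  have h2 : HasFDerivAt (𝕜 := ℝ) (fun ξ : E n => ((inner ℝ ξ x : ℝ) : ℂ))
      (Complex.ofRealCLM ∘L (innerSL ℝ x)) ξ :=
    Complex.ofRealCLM.hasFDerivAt.comp ξ h1
  exact (h2.const_mul (2 * Real.pi * Complex.I)).cexp

theorem line_mul {g : E n → ℂ} (hg : g.HasTemperateGrowth) {g' : E n →L[ℝ] ℂ} {ξ : E n}
    (hd : HasFDerivAt (𝕜 := ℝ) g g' ξ) (b : 𝓢(E n, ℂ)) (v : E n) :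
    (∂_{v} (smulLeftCLM ℂ g b) : 𝓢(E n, ℂ)) ξ = g' v * b ξ + g ξ * (∂_{v} b : 𝓢(E n, ℂ)) ξ := by
  rw [lineDerivOp_apply_eq_fderiv, lineDerivOp_apply_eq_fderiv]
  have h1 : (⇑(smulLeftCLM ℂ g b) : E n → ℂ) = fun y => g y * b y := by
    funext y
    rw [smulLeftCLM_apply_apply hg, smul_eq_mul]
  rw [h1]
  have h2 : HasFDerivAt (𝕜 := ℝ) (fun y => g y * b y) (g ξ • fderiv ℝ (⇑b) ξ + b ξ • g') ξ :=
    hd.mul (b.hasFDerivAt ξ)
  rw [h2.fderiv]
  simp only [_root_.add_apply, _root_.smul_apply, smul_eq_mul]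
  ring

theorem line_ch (x : E n) (b : 𝓢(E n, ℂ)) (v : E n) :
    (∂_{v} (smulLeftCLM ℂ (ch x) b) : 𝓢(E n, ℂ)) =
      (2 * Real.pi * Complex.I * (inner ℝ x v : ℝ)) • smulLeftCLM ℂ (ch x) b
        + smulLeftCLM ℂ (ch x) (∂_{v} b) := by
  ext ξ
  rw [line_mul (CONV.tg_ch x) (hasFDerivAt_ch x ξ)]
  have e : ((2 * Real.pi * Complex.I * (inner ℝ x v : ℝ)) • smulLeftCLM ℂ (ch x) b
        + smulLeftCLM ℂ (ch x) (∂_{v} b) : 𝓢(E n, ℂ)) ξ =
      (2 * Real.pi * Complex.I * (inner ℝ x v : ℝ)) * smulLeftCLM ℂ (ch x) b ξ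
        + smulLeftCLM ℂ (ch x) (∂_{v} b) ξ := rfl
  rw [e, smulLeftCLM_apply_apply (CONV.tg_ch x), smulLeftCLM_apply_apply (CONV.tg_ch x)]
  have e2 : (ch x ξ • ((2 * Real.pi * Complex.I) • (Complex.ofRealCLM ∘L (innerSL ℝ x)))) v
      = ch x ξ * ((2 * Real.pi * Complex.I) * ((inner ℝ x v : ℝ) : ℂ)) := rfl
  rw [e2]
  simp only [smul_eq_mul]
  ring

theorem line_four (u b : 𝓢(E n, ℂ)) (v : E n) :
    (∂_{v} (smulLeftCLM ℂ ((𝓕⁻ u : 𝓢(E n, ℂ)) : E n → ℂ) b) : 𝓢(E n, ℂ)) =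
      smulLeftCLM ℂ ((𝓕⁻ ((2 * Real.pi * Complex.I) • smulLeftCLM ℂ (inner ℝ · v) u) :
        𝓢(E n, ℂ)) : E n → ℂ) b
        + smulLeftCLM ℂ ((𝓕⁻ u : 𝓢(E n, ℂ)) : E n → ℂ) (∂_{v} b) := by
  ext ξ
  rw [line_mul (SchwartzMap.hasTemperateGrowth _) ((𝓕⁻ u : 𝓢(E n, ℂ)).hasFDerivAt ξ),
    _root_.add_apply, smulLeftCLM_apply_apply (SchwartzMap.hasTemperateGrowth _),
    smulLeftCLM_apply_apply (SchwartzMap.hasTemperateGrowth _), ← lineDerivOp_fourierInv_eq,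
    lineDerivOp_apply_eq_fderiv]
  rfl

theorem Good.line {X : Type} [NormedAddCommGroup X] [NormedSpace ℂ X]
    {T : 𝓢(E n, ℂ) →L[ℂ] X} (hT : Good T) (v : E n) :
    Good (T ∘L (LineDeriv.lineDerivOpCLM ℂ 𝓢(E n, ℂ) v)) := by
  intro b
  obtain ⟨h1, ⟨C, N, h2⟩, h3⟩ := hT b
  obtain ⟨k1, ⟨D, M, k2⟩, k3⟩ := hT (∂_{v} b)
  have key : ∀ x, (T ∘L (LineDeriv.lineDerivOpCLM ℂ 𝓢(E n, ℂ) v)) (smulLeftCLM ℂ (ch x) b) =
      (2 * Real.pi * Complex.I * (inner ℝ x v : ℝ)) • T (smulLeftCLM ℂ (ch x) b)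
        + T (smulLeftCLM ℂ (ch x) (∂_{v} b)) := by
    intro x
    rw [ContinuousLinearMap.comp_apply, LineDeriv.lineDerivOpCLM_apply, line_ch, map_add, map_smul]
  have hC : 0 ≤ C := by
    have := (norm_nonneg _).trans (h2 0)
    simpa using this
  have hD : 0 ≤ D := by
    have := (norm_nonneg _).trans (k2 0)
    simpa using this
  refine ⟨?_, ⟨2 * Real.pi * ‖v‖ * C + D, N + 1 + M, fun x => ?_⟩, fun u => ?_⟩
  · simp_rw [key]
    refine Continuous.add (Continuous.smul ?_ h1) k1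
    refine continuous_const.mul (Complex.continuous_ofReal.comp ?_)
    exact continuous_id.inner continuous_const
  · rw [key]
    refine (norm_add_le _ _).trans ?_
    rw [norm_smul]
    have hx : (1 : ℝ) ≤ 1 + ‖x‖ := by have := norm_nonneg x; linarith
    have e1 : ‖(2 * Real.pi * Complex.I * (inner ℝ x v : ℝ) : ℂ)‖ ≤ 2 * Real.pi * ‖v‖ * (1 + ‖x‖) := by
      rw [norm_mul, norm_mul, norm_mul, Complex.norm_I, Complex.norm_real, Complex.norm_real]
      rw [Real.norm_of_nonneg Real.pi_pos.le]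
      have := norm_inner_le_norm (𝕜 := ℝ) x v
      have h3 : ‖x‖ * ‖v‖ ≤ ‖v‖ * (1 + ‖x‖) := by nlinarith [norm_nonneg v]
      calc ‖(2 : ℂ)‖ * Real.pi * 1 * ‖(inner ℝ x v : ℝ)‖
          = 2 * Real.pi * ‖(inner ℝ x v : ℝ)‖ := by simp
        _ ≤ 2 * Real.pi * (‖v‖ * (1 + ‖x‖)) := by gcongr; exact this.trans h3
        _ = _ := by ring
    calc ‖(2 * Real.pi * Complex.I * (inner ℝ x v : ℝ) : ℂ)‖ * ‖T (smulLeftCLM ℂ (ch x) b)‖
          + ‖T (smulLeftCLM ℂ (ch x) (∂_{v} b))‖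
        ≤ (2 * Real.pi * ‖v‖ * (1 + ‖x‖)) * (C * (1 + ‖x‖) ^ N) + D * (1 + ‖x‖) ^ M := by
          gcongr
          · exact h2 x
          · exact k2 x
      _ = 2 * Real.pi * ‖v‖ * C * (1 + ‖x‖) ^ (N + 1) + D * (1 + ‖x‖) ^ M := by ring
      _ ≤ 2 * Real.pi * ‖v‖ * C * (1 + ‖x‖) ^ (N + 1 + M) + D * (1 + ‖x‖) ^ (N + 1 + M) := by
          have p1 : (1 + ‖x‖) ^ (N + 1) ≤ (1 + ‖x‖) ^ (N + 1 + M) :=
            pow_le_pow_right₀ hx (by omega)
          have p2 : (1 + ‖x‖) ^ M ≤ (1 + ‖x‖) ^ (N + 1 + M) :=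
            pow_le_pow_right₀ hx (by omega)
          gcongr
      _ = _ := by ring
  · rw [ContinuousLinearMap.comp_apply, LineDeriv.lineDerivOpCLM_apply, line_four, map_add, ← k3 u,
      ← h3 ((2 * Real.pi * Complex.I) • smulLeftCLM ℂ (inner ℝ · v) u),
      ← integral_add (hT.integ b _) (hT.integ (∂_{v} b) u)]
    apply integral_congr_ae
    filter_upwards with x
    rw [key, smul_add, _root_.smul_apply]
    congr 1
    have : (inner ℝ · v : E n → ℝ).HasTemperateGrowth := Function.hasTemperateGrowth_inner_left v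
    rw [smulLeftCLM_apply_apply this, smul_smul]
    congr 1
    simp only [smul_eq_mul, Complex.real_smul]
    ring

theorem Good.prod {X Y : Type} [NormedAddCommGroup X] [NormedSpace ℂ X] [CompleteSpace X]
    [NormedAddCommGroup Y] [NormedSpace ℂ Y] [CompleteSpace Y]
    {T : 𝓢(E n, ℂ) →L[ℂ] X} {S : 𝓢(E n, ℂ) →L[ℂ] Y} (hT : Good T) (hS : Good S) :
    Good (T.prod S) := by
  intro b
  obtain ⟨h1, ⟨C, N, h2⟩, h3⟩ := hT b
  obtain ⟨k1, ⟨D, M, k2⟩, k3⟩ := hS b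
  have hC : 0 ≤ C := by
    have := (norm_nonneg _).trans (h2 0)
    simpa using this
  have hD : 0 ≤ D := by
    have := (norm_nonneg _).trans (k2 0)
    simpa using this
  have hcont : Continuous (fun x : E n => (T.prod S) (smulLeftCLM ℂ (ch x) b)) := h1.prodMk k1
  have hgrow : ∀ x : E n, ‖(T.prod S) (smulLeftCLM ℂ (ch x) b)‖ ≤ (C + D) * (1 + ‖x‖) ^ (N + M) := by
    intro x
    have hx : (1 : ℝ) ≤ 1 + ‖x‖ := by have := norm_nonneg x; linarith
    rw [ContinuousLinearMap.prod_apply, Prod.norm_mk]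
    apply max_le
    · refine (h2 x).trans ?_
      have : C * (1 + ‖x‖) ^ N ≤ C * (1 + ‖x‖) ^ (N + M) := by
        gcongr; first | exact hx | omega
      have h0 : 0 ≤ D * (1 + ‖x‖) ^ (N + M) := by positivity
      linarith
    · refine (k2 x).trans ?_
      have : D * (1 + ‖x‖) ^ M ≤ D * (1 + ‖x‖) ^ (N + M) := by
        gcongr; first | exact hx | omega
      have h0 : 0 ≤ C * (1 + ‖x‖) ^ (N + M) := by positivity
      linarith
  refine ⟨hcont, ⟨_, _, hgrow⟩, fun u => ?_⟩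
  have hi := Exc.integ hcont hgrow u
  rw [ContinuousLinearMap.prod_apply, ← h3 u, ← k3 u, ← integral_pair (hT.integ b u) (hS.integ b u)]
  rfl

theorem Good.post {X Y : Type} [NormedAddCommGroup X] [NormedSpace ℂ X] [CompleteSpace X]
    [NormedAddCommGroup Y] [NormedSpace ℂ Y] [CompleteSpace Y]
    {T : 𝓢(E n, ℂ) →L[ℂ] X} (hT : Good T) (L : X →L[ℂ] Y) : Good (L ∘L T) := by
  intro b
  obtain ⟨h1, ⟨C, N, h2⟩, h3⟩ := hT b
  refine ⟨L.continuous.comp h1, ⟨‖L‖ * C, N, fun x => ?_⟩, fun u => ?_⟩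
  · rw [ContinuousLinearMap.comp_apply, mul_assoc]
    refine (L.le_opNorm _).trans ?_
    gcongr
    exact h2 x
  · rw [ContinuousLinearMap.comp_apply, ← h3 u, ← L.integral_comp_comm (hT.integ b u)]
    apply integral_congr_ae
    filter_upwards with x
    rw [map_smul, ContinuousLinearMap.comp_apply]

/-- `p` is dominated by a good map. -/
def Dom (p : 𝓢(E n, ℂ) → ℝ) : Prop :=
  ∃ (X : Type) (_ : NormedAddCommGroup X) (_ : NormedSpace ℂ X) (_ : CompleteSpace X)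
    (T : 𝓢(E n, ℂ) →L[ℂ] X), Good T ∧ ∃ C : ℝ, 0 ≤ C ∧ ∀ g, p g ≤ C * ‖T g‖

theorem Dom.mono {p q : 𝓢(E n, ℂ) → ℝ} (hp : Dom p) (C : ℝ) (hC : 0 ≤ C)
    (h : ∀ g, q g ≤ C * p g) : Dom q := by
  obtain ⟨X, i1, i2, i3, T, hT, D, hD, h1⟩ := hp
  refine ⟨X, i1, i2, i3, T, hT, C * D, by positivity, fun g => (h g).trans ?_⟩
  rw [mul_assoc]
  exact mul_le_mul_of_nonneg_left (h1 g) hC

theorem Dom.add {p q : 𝓢(E n, ℂ) → ℝ} (hp : Dom p) (hq : Dom q) : Dom (fun g => p g + q g) := by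
  obtain ⟨X, i1, i2, i3, T, hT, C, hC, h1⟩ := hp
  obtain ⟨Y, j1, j2, j3, S, hS, D, hD, h2⟩ := hq
  refine ⟨X × Y, inferInstance, inferInstance, inferInstance, T.prod S, hT.prod hS, C + D,
    by positivity, fun g => ?_⟩
  rw [ContinuousLinearMap.prod_apply, Prod.norm_mk, add_mul]
  exact add_le_add ((h1 g).trans (mul_le_mul_of_nonneg_left (le_max_left _ _) hC))
    ((h2 g).trans (mul_le_mul_of_nonneg_left (le_max_right _ _) hD))

theorem Dom.line {p : 𝓢(E n, ℂ) → ℝ} (hp : Dom p) (v : E n) : Dom (fun g : 𝓢(E n, ℂ) => p (∂_{v} g : 𝓢(E n, ℂ))) := by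
  obtain ⟨X, i1, i2, i3, T, hT, C, hC, h1⟩ := hp
  exact ⟨X, i1, i2, i3, _, hT.line v, C, hC, fun g => h1 _⟩

theorem Dom.weight {p : 𝓢(E n, ℂ) → ℝ} (hp : Dom p) {w : E n → ℂ} (hw : w.HasTemperateGrowth) :
    Dom (fun g => p (smulLeftCLM ℂ w g)) := by
  obtain ⟨X, i1, i2, i3, T, hT, C, hC, h1⟩ := hp
  exact ⟨X, i1, i2, i3, _, hT.weight hw, C, hC, fun g => h1 _⟩

theorem dom_zero : Dom (fun _ : 𝓢(E n, ℂ) => 0) :=
  ⟨E n →ᵇ ℂ, inferInstance, inferInstance, inferInstance, _, good_bcf, 0, le_rfl, fun g => by simp⟩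

theorem dom_sum {ι : Type*} (s : Finset ι) (p : ι → 𝓢(E n, ℂ) → ℝ) (hp : ∀ i, Dom (p i)) :
    Dom (fun g => ∑ i ∈ s, p i g) := by
  classical
  induction s using Finset.induction_on with
  | empty => simpa using dom_zero
  | insert i s hi ih =>
    simp only [Finset.sum_insert hi]
    exact (hp i).add ih

theorem dom00 : Dom (fun g : 𝓢(E n, ℂ) => SchwartzMap.seminorm ℂ 0 0 g) := by
  refine ⟨E n →ᵇ ℂ, inferInstance, inferInstance, inferInstance, _, good_bcf, 1, zero_le_one,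
    fun g => ?_⟩
  rw [one_mul]
  refine seminorm_le_bound ℂ 0 0 g (norm_nonneg _) fun x => ?_
  rw [pow_zero, one_mul, norm_iteratedFDeriv_zero]
  exact (toBoundedContinuousFunctionCLM ℂ (E n) ℂ g).norm_coe_le_norm x

/-- The weight `(1 + |x|^2)^k`. -/
noncomputable def wt (n k : ℕ) (x : E n) : ℂ := ((1 + ‖x‖ ^ 2 : ℝ) : ℂ) ^ k

theorem tg_wt (k : ℕ) : (wt n k).HasTemperateGrowth := by
  have h1 : (fun x : E n => (1 : ℝ) + ‖x‖ ^ 2).HasTemperateGrowth :=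
    (Function.HasTemperateGrowth.const (1 : ℝ)).add (Function.hasTemperateGrowth_norm_sq (H := E n))
  have h2 : (fun x : E n => ((1 + ‖x‖ ^ 2 : ℝ) : ℂ)).HasTemperateGrowth :=
    Function.HasTemperateGrowth.comp Function.Complex.hasTemperateGrowth_ofReal h1
  exact h2.pow k

theorem dom_k0 (k : ℕ) : Dom (fun g : 𝓢(E n, ℂ) => SchwartzMap.seminorm ℂ k 0 g) := by
  refine (dom00.weight (tg_wt (n := n) k)).mono 1 zero_le_one fun g => ?_
  rw [one_mul]
  refine seminorm_le_bound ℂ k 0 g (by positivity) fun x => ?_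
  rw [norm_iteratedFDeriv_zero]
  refine le_trans ?_ (norm_le_seminorm ℂ (smulLeftCLM ℂ (wt n k) g) x)
  rw [smulLeftCLM_apply_apply (tg_wt k), norm_smul]
  gcongr
  unfold wt
  rw [norm_pow, Complex.norm_real, Real.norm_of_nonneg (by positivity)]
  gcongr
  nlinarith [sq_nonneg (‖x‖ - 1)]

/-- The `i`-th coordinate as a rank one operator. -/
noncomputable def Li (n : ℕ) (i : Fin n) : ℂ →L[ℝ] (E n →L[ℝ] ℂ) :=
  ContinuousLinearMap.smulRightL ℝ (E n) ℂ (innerSL ℝ (EuclideanSpace.single i (1 : ℝ)))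

theorem fderiv_eq (g : 𝓢(E n, ℂ)) : fderiv ℝ (g : E n → ℂ) =
    fun ξ => ∑ i, ((Li n i) ∘ (∂_{(EuclideanSpace.single i (1 : ℝ) : E n)} g : 𝓢(E n, ℂ))) ξ := by
  funext ξ
  ext v
  rw [_root_.sum_apply]
  conv_lhs => rw [show v = ∑ i, v i • (EuclideanSpace.single i (1 : ℝ) : E n) by
    ext j; simp [Finset.sum_apply, Pi.single_apply]]
  rw [map_sum]
  apply Finset.sum_congr rfl
  intro i _
  rw [map_smul]
  simp [Li, lineDerivOp_apply_eq_fderiv, EuclideanSpace.inner_single_left]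

theorem dom_all (l : ℕ) : ∀ k : ℕ, Dom (fun g : 𝓢(E n, ℂ) => SchwartzMap.seminorm ℂ k l g) := by
  induction l with
  | zero => exact dom_k0
  | succ l ih =>
    intro k
    have h := dom_sum (Finset.univ : Finset (Fin n))
      (fun i g => ‖Li n i‖ * SchwartzMap.seminorm ℂ k l
        (∂_{(EuclideanSpace.single i (1 : ℝ) : E n)} g : 𝓢(E n, ℂ)))
      (fun i => (Dom.line (ih k) (EuclideanSpace.single i (1 : ℝ))).mono ‖Li n i‖
        (ContinuousLinearMap.opNorm_nonneg _) (fun g => le_rfl))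
    refine h.mono 1 zero_le_one fun g => ?_
    rw [one_mul]
    refine seminorm_le_bound ℂ k (l + 1) g (by positivity) fun x => ?_
    rw [← norm_iteratedFDeriv_fderiv, fderiv_eq]
    rw [iteratedFDeriv_fun_sum_apply (fun i _ =>
      ((Li n i).contDiff.comp (SchwartzMap.smooth _ l)).contDiffAt)]
    calc ‖x‖ ^ k * ‖∑ i, iteratedFDeriv ℝ l ((Li n i) ∘
          (∂_{(EuclideanSpace.single i (1 : ℝ) : E n)} g : 𝓢(E n, ℂ))) x‖
        ≤ ‖x‖ ^ k * ∑ i, ‖iteratedFDeriv ℝ l ((Li n i) ∘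
          (∂_{(EuclideanSpace.single i (1 : ℝ) : E n)} g : 𝓢(E n, ℂ))) x‖ := by
          gcongr
          exact norm_sum_le _ _
      _ ≤ ‖x‖ ^ k * ∑ i, ‖Li n i‖ * ‖iteratedFDeriv ℝ l
          (∂_{(EuclideanSpace.single i (1 : ℝ) : E n)} g : 𝓢(E n, ℂ)) x‖ := by
          gcongr with i
          exact (Li n i).norm_iteratedFDeriv_comp_left (SchwartzMap.smooth _ l).contDiffAt le_rfl
      _ = ∑ i, ‖Li n i‖ * (‖x‖ ^ k * ‖iteratedFDeriv ℝ l
          (∂_{(EuclideanSpace.single i (1 : ℝ) : E n)} g : 𝓢(E n, ℂ)) x‖) := by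
          rw [Finset.mul_sum]
          apply Finset.sum_congr rfl
          intro i _
          ring
      _ ≤ _ := by
          gcongr with i
          exact le_seminorm ℂ k l _ x

theorem dom_sup (s : Finset (ℕ × ℕ)) :
    Dom (fun g : 𝓢(E n, ℂ) => (s.sup (schwartzSeminormFamily ℂ (E n) ℂ)) g) := by
  have h := dom_sum s (fun m (g : 𝓢(E n, ℂ)) => schwartzSeminormFamily ℂ (E n) ℂ m g)
    (fun m => dom_all m.2 m.1)
  refine h.mono 1 zero_le_one fun g => ?_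
  rw [one_mul]
  apply Seminorm.finset_sup_apply_le (Finset.sum_nonneg fun i _ => apply_nonneg _ _)
  intro i hi
  exact Finset.single_le_sum (f := fun m => schwartzSeminormFamily ℂ (E n) ℂ m g)
    (fun j _ => apply_nonneg _ _) hi

theorem good_of_dom (F : 𝓢(E n, ℂ) →L[ℂ] ℂ) (hF : Dom (fun g => ‖F g‖)) : Good F := by
  obtain ⟨X, i1, i2, i3, T, hT, C, hC, h⟩ := hF
  let R : Submodule ℂ X := LinearMap.range (T : 𝓢(E n, ℂ) →ₗ[ℂ] X)
  obtain ⟨s, hs⟩ := (T : 𝓢(E n, ℂ) →ₗ[ℂ] X).rangeRestrict.exists_rightInverse_of_surjective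
    (LinearMap.range_rangeRestrict _)
  have hs' : ∀ y : R, T (s y) = y := by
    intro y
    have := LinearMap.congr_fun hs y
    exact congrArg Subtype.val this
  let f : R →L[ℂ] ℂ := LinearMap.mkContinuous ((F : 𝓢(E n, ℂ) →ₗ[ℂ] ℂ) ∘ₗ s) C (fun y => by
    have := h (s y)
    rw [hs' y] at this
    exact this)
  obtain ⟨L, hL, -⟩ := exists_extension_norm_eq R f
  have hfac : F = L ∘L T := by
    ext g
    rw [ContinuousLinearMap.comp_apply]
    let y : R := ⟨T g, ⟨g, rfl⟩⟩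
    have e1 : L (T g) = F (s y) := hL y
    have e2 : ‖F (s y - g)‖ ≤ C * ‖T (s y - g)‖ := h _
    rw [map_sub T, hs' y] at e2
    have e3 : ((y : X) - T g) = 0 := sub_self _
    rw [e3, norm_zero, mul_zero] at e2
    have e4 : F (s y - g) = 0 := norm_le_zero_iff.mp e2
    rw [map_sub] at e4
    rw [e1]
    exact (sub_eq_zero.mp e4).symm
  rw [hfac]
  exact hT.post L

theorem good_all (F : 𝓢(E n, ℂ) →L[ℂ] ℂ) : Good F := by
  apply good_of_dom
  obtain ⟨s, C, -, h⟩ := Seminorm.bound_of_continuous (schwartz_withSeminorms ℂ (E n) ℂ)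
    ((normSeminorm ℂ ℂ).comp (F : 𝓢(E n, ℂ) →ₗ[ℂ] ℂ)) (continuous_norm.comp F.continuous)
  exact (dom_sup s).mono C C.2 fun g => h g

theorem main : S_EXC := by
  intro n F b
  let F' : 𝓢(E n, ℂ) →L[ℂ] ℂ := ⟨⟨⟨fun g => F g, fun g h => map_add F g h⟩, fun c g => map_smul F c g⟩,
    F.continuous⟩
  obtain ⟨h1, h2, h3⟩ := good_all F' b
  refine ⟨h1, h2, fun u => ?_⟩
  refine Eq.trans ?_ (h3 u)
  apply integral_congr_ae
  filter_upwards with x
  exact mul_comm _ _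

end Pool.Agent.H25.VT.Exc
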