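import Pool.Agent.H25.VT.Spec

set_option autoImplicit false

open MeasureTheory
open scoped ENNReal NNReal SchwartzMap FourierTransform

namespace Pool.Agent.H25.VT.FIN

theorem modular_eq {n : ℕ} (p : E n → ℝ≥0∞) (hp : ∀ x, p x < ∞) (g : E n → ℝ≥0∞) :
    modular p g = ∫⁻ x, g x ^ (p x).toReal := by
  unfold modular
  have h1 : {x | p x < ∞} = Set.univ := by
    ext x; simpa using hp x
  have h2 : {x | p x = ∞} = ∅ := by
    ext x; simpa using (hp x).ne
  rw [h1, h2, Set.indicator_empty, Measure.restrict_univ]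
  have : essSup (fun _ : E n => (0 : ℝ≥0∞)) volume = 0 := by
    have := essSup_const_bot (α := E n) (β := ℝ≥0∞) (μ := volume)
    simpa using this
  rw [this, add_zero]

theorem main (hMAIN : S_MAIN) (hPW : S_PW) (hWT : S_WT) (hLQ : S_LQ) (hEXPO : S_EXPO)
    (hEXC : S_EXC) (hLIP : S_LIP) : S_FIN := by
  intro n p q s c hn hc hpm hqm hpc hqc hp hq hps hs φ ψ hφ hψ
  obtain ⟨hLmono, hLhom, hLpow, hLsum⟩ := hLQ
  obtain ⟨hpfin, hpr⟩ := hEXPO n p c hn hc hpm hpc hp hps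
  set r : ℝ := min (1 / 2) (c / 2) with hr
  have hr0 : 0 < r := by rw [hr]; positivity
  have hr1 : r ≤ 1 := by rw [hr]; exact (min_le_left _ _).trans (by norm_num)
  have hrc2 : r ≤ c / 2 := min_le_right _ _
  have hrc : r < c := by linarith
  obtain ⟨b, hP, hPb⟩ := hpr r hr0 hrc
  have ha : 1 < c / r := by rw [lt_div_iff₀ hr0]; linarith
  have hr' : ENNReal.ofReal r ≠ 0 := by simpa using hr0
  have hr'' : ENNReal.ofReal r ≠ ∞ := ENNReal.ofReal_ne_top
  set Q : E n → ℝ≥0∞ := fun x => q x / ENNReal.ofReal r with hQ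
  have hQm : Measurable Q := hqm.div_const _
  have hQinv : ∀ x, ((Q x)⁻¹).toReal = r * ((q x)⁻¹).toReal := by
    intro x
    simp only [hQ]
    rw [ENNReal.inv_div (Or.inl hr'') (Or.inl hr'), div_eq_mul_inv, ENNReal.toReal_mul,
      ENNReal.toReal_ofReal hr0.le]
  have hQl : LogHolder (fun x => ((Q x)⁻¹).toReal) := by
    have h := hLIP n (fun x => ((q x)⁻¹).toReal) (fun t => r * t) ⟨r, hr0.le⟩ (by
      apply LipschitzWith.of_dist_le_mul
      intro x y
      rw [Real.dist_eq, Real.dist_eq, ← mul_sub, abs_mul, abs_of_pos hr0]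
      rfl) hq
    simpa only [hQinv] using h
  have ha' : (1 : ℝ≥0∞) < ENNReal.ofReal (c / r) := by
    rw [← ENNReal.ofReal_one]
    exact (ENNReal.ofReal_lt_ofReal_iff (by positivity)).2 ha
  have haQ : ∀ x, ENNReal.ofReal (c / r) ≤ Q x := by
    intro x
    simp only [hQ]
    rw [ENNReal.ofReal_div_of_pos hr0]
    exact ENNReal.div_le_div_right (hqc x).le _
  have hQ1 : ∀ x, 1 ≤ Q x := fun x => ha'.le.trans (haQ x)
  have hq0 : ∀ x, 0 < q x := fun x => (bot_le.trans_lt (hqc x))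
  obtain ⟨R1, hR1, hM⟩ := hMAIN n (fun x => (p x).toReal / r) Q (c / r) b (ENNReal.ofReal (c / r))
    hn hP ha hPb hQm hQl ha' haQ
  obtain ⟨K, hK0, hK1, hM⟩ := hM (R1 + 1) (by linarith)
  obtain ⟨Cw, R2, hCw, hR2, hW⟩ := hWT n s r hs hr0
  obtain ⟨Cp, hCp, hPW⟩ := hPW n φ ψ r (R1 + 1 + R2) hn hφ hψ hr0 hr1 (by positivity)
  -- the constant
  set D : ℝ≥0∞ := 9 * (Cp * Cw) * K + 1 with hD
  have hD1 : D ≠ ∞ := by
    rw [hD]
    exact ENNReal.add_ne_top.2 ⟨ENNReal.mul_ne_top (ENNReal.mul_ne_top (by norm_num)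
      (ENNReal.mul_ne_top hCp hCw)) hK1, by norm_num⟩
  have hD0 : D ≠ 0 := by rw [hD]; simp
  have hir : 0 < 1 / r := by positivity
  set C : ℝ≥0∞ := D ^ (1 / r) with hC
  have hC0 : C ≠ 0 := by
    rw [hC]; simp [ENNReal.rpow_eq_zero_iff, hD0, hD1]
  have hC1 : C ≠ ∞ := ENNReal.rpow_ne_top_of_nonneg hir.le hD1
  have hCr : C ^ r = D := by
    rw [hC, ← ENNReal.rpow_mul, one_div_mul_cancel hr0.ne', ENNReal.rpow_one]
  refine ⟨C, hC0, hC1, fun f => ?_⟩
  set Gφ : E n → ℝ≥0∞ := fun x => lq (q x) (fun j => ENNReal.ofReal (2 ^ ((j : ℝ) * s x))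
    * ‖pieceFn φ f j x‖ₑ) with hGφ
  set Gψ : E n → ℝ≥0∞ := fun x => lq (q x) (fun j => ENNReal.ofReal (2 ^ ((j : ℝ) * s x))
    * ‖pieceFn ψ f j x‖ₑ) with hGψ
  change lnorm p Gφ ≤ C * lnorm p Gψ
  rw [mul_comm, ← ENNReal.div_le_iff hC0 hC1]
  refine le_sInf fun l hl => ?_
  obtain ⟨hl0, hl1, hlm⟩ := hl
  rw [ENNReal.div_le_iff hC0 hC1]
  refine sInf_le ⟨?_, ?_, ?_⟩
  · exact ENNReal.mul_pos hl0.ne' hC0
  · exact ENNReal.mul_lt_top hl1 hC1.lt_top
  rw [modular_eq p hpfin] at hlm ⊢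
  have hl0' : l ≠ 0 := hl0.ne'
  have hl1' : l ≠ ∞ := hl1.ne
  have hlr0 : l ^ r ≠ 0 := by simp [ENNReal.rpow_eq_zero_iff, hl0', hl1']
  have hlr1 : l ^ r ≠ ∞ := ENNReal.rpow_ne_top_of_nonneg hr0.le hl1'
  set w : ℕ → E n → ℝ≥0∞ := fun i z => ENNReal.ofReal (2 ^ ((i : ℝ) * s z)) with hw
  set u : ℕ → E n → ℝ≥0∞ := fun i z => (w i z * ‖pieceFn ψ f i z‖ₑ / l) ^ r with hu
  have hsc : Continuous s := hs.1
  have hcont : ∀ i, Continuous (pieceFn ψ f i) := fun i => (hEXC n (𝓕 f) (res ψ i)).1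
  have hum : ∀ i, Measurable (u i) := by
    intro i
    simp only [hu, hw]
    have h1 : Continuous fun z : E n => (2 : ℝ) ^ ((i : ℝ) * s z) := by
      apply Continuous.rpow continuous_const (by fun_prop)
      intro x; left; norm_num
    have h2 : Measurable fun z : E n => ‖pieceFn ψ f i z‖ₑ := (hcont i).measurable.enorm
    exact (((ENNReal.measurable_ofReal.comp h1.measurable).mul h2).div_const _).pow_const _
  -- relation of the sequence norms
  have hrel : ∀ (χ : 𝓢(E n, ℂ)) (x : E n),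
      lq (Q x) (fun j => (w j x * ‖pieceFn χ f j x‖ₑ / l) ^ r)
        = (lq (q x) (fun j => w j x * ‖pieceFn χ f j x‖ₑ) / l) ^ r := by
    intro χ x
    rw [hQ, hLpow (q x) r _ (hq0 x) hr0]
    congr 1
    have := hLhom (q x) l⁻¹ (fun j => w j x * ‖pieceFn χ f j x‖ₑ) (hq0 x)
    rw [div_eq_mul_inv, mul_comm, ← this]
    congr 1
    funext j
    rw [div_eq_mul_inv, mul_comm]
  have hmod : ∫⁻ x, lq (Q x) (fun j => u j x) ^ ((p x).toReal / r) ≤ 1 := by
    refine le_trans (le_of_eq ?_) hlm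
    apply lintegral_congr
    intro x
    simp only [hu]
    rw [hrel ψ x, ← ENNReal.rpow_mul, mul_div_cancel₀ _ hr0.ne']
  have hres := hM u hum hmod
  refine le_trans (lintegral_mono fun x => ?_) hres
  have key : (Gφ x / (l * C)) ^ r ≤ lq (Q x) (fun j => cv j (R1 + 1) (u j) x) / K := by
    have e1 : (Gφ x / (l * C)) ^ r = (Gφ x / l) ^ r / D := by
      rw [← hCr, ← ENNReal.div_rpow_of_nonneg _ _ hr0.le]
      congr 1
      rw [div_eq_mul_inv, div_eq_mul_inv, div_eq_mul_inv, ENNReal.mul_inv (Or.inl hl0')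
        (Or.inl hl1'), mul_assoc]
    have e2 : (Gφ x / l) ^ r ≤ 9 * (Cp * Cw) * lq (Q x) (fun j => cv j (R1 + 1) (u j) x) := by
      rw [hGφ]
      rw [← hrel φ x]
      have hj : ∀ j, (w j x * ‖pieceFn φ f j x‖ₑ / l) ^ r
          ≤ (Cp * Cw) * ∑ i ∈ Finset.Icc (j - 1) (j + 1), cv i (R1 + 1) (u i) x := by
        intro j
        rw [ENNReal.div_rpow_of_nonneg _ _ hr0.le, ENNReal.mul_rpow_of_nonneg _ _ hr0.le]
        have h1 : w j x ^ r * ‖pieceFn φ f j x‖ₑ ^ r ≤ Cp * ∑ i ∈ Finset.Icc (j - 1) (j + 1),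
            w j x ^ r * cv i (R1 + 1 + R2) (fun z => ‖pieceFn ψ f i z‖ₑ ^ r) x := by
          rw [← Finset.mul_sum, mul_left_comm]
          exact mul_le_mul_right (hPW f j x) _
        have h2 : ∀ i ∈ Finset.Icc (j - 1) (j + 1),
            w j x ^ r * cv i (R1 + 1 + R2) (fun z => ‖pieceFn ψ f i z‖ₑ ^ r) x
            ≤ Cw * (l ^ r * cv i (R1 + 1) (u i) x) := by
          intro i hi
          refine (hW (R1 + 1 + R2) j i (fun z => ‖pieceFn ψ f i z‖ₑ ^ r) x hi).trans ?_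
          apply mul_le_mul_right
          have : R1 + 1 + R2 - R2 = R1 + 1 := by ring
          rw [this]
          unfold cv
          rw [← lintegral_const_mul' _ _ hlr1]
          apply le_of_eq
          apply lintegral_congr
          intro z
          simp only [hu]
          rw [ENNReal.div_rpow_of_nonneg _ _ hr0.le, ENNReal.mul_rpow_of_nonneg _ _ hr0.le]
          rw [mul_left_comm (l ^ r), ENNReal.mul_div_cancel hlr0 hlr1]
        calc w j x ^ r * ‖pieceFn φ f j x‖ₑ ^ r / l ^ r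
            ≤ (Cp * ∑ i ∈ Finset.Icc (j - 1) (j + 1), Cw * (l ^ r * cv i (R1 + 1) (u i) x))
              / l ^ r := by
              apply ENNReal.div_le_div_right
              exact h1.trans (mul_le_mul_right (Finset.sum_le_sum h2) _)
          _ = (Cp * Cw) * ∑ i ∈ Finset.Icc (j - 1) (j + 1), cv i (R1 + 1) (u i) x := by
              rw [← Finset.mul_sum, ← Finset.mul_sum]
              rw [show Cp * (Cw * (l ^ r * ∑ i ∈ Finset.Icc (j - 1) (j + 1), cv i (R1 + 1) (u i) x))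
                = (Cp * Cw * ∑ i ∈ Finset.Icc (j - 1) (j + 1), cv i (R1 + 1) (u i) x) * l ^ r by
                ring]
              exact ENNReal.mul_div_cancel_right hlr0 hlr1
      have hQ0 : 0 < Q x := lt_of_lt_of_le (by norm_num) (hQ1 x)
      calc lq (Q x) (fun j => (w j x * ‖pieceFn φ f j x‖ₑ / l) ^ r)
          ≤ lq (Q x) (fun j => (Cp * Cw) * ∑ i ∈ Finset.Icc (j - 1) (j + 1),
              cv i (R1 + 1) (u i) x) := hLmono _ _ _ hQ0 hj
        _ = (Cp * Cw) * lq (Q x) (fun j => ∑ i ∈ Finset.Icc (j - 1) (j + 1),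
              cv i (R1 + 1) (u i) x) := hLhom _ _ _ hQ0
        _ ≤ (Cp * Cw) * (9 * lq (Q x) (fun j => cv j (R1 + 1) (u j) x)) :=
            mul_le_mul_right (hLsum (Q x) (fun i => cv i (R1 + 1) (u i) x) (hQ1 x)) _
        _ = 9 * (Cp * Cw) * lq (Q x) (fun j => cv j (R1 + 1) (u j) x) := by ring
    rw [e1]
    rw [ENNReal.div_le_iff hD0 hD1]
    refine e2.trans ?_
    calc 9 * (Cp * Cw) * lq (Q x) (fun j => cv j (R1 + 1) (u j) x)
        = lq (Q x) (fun j => cv j (R1 + 1) (u j) x) / K * (9 * (Cp * Cw) * K) := by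
          rw [show lq (Q x) (fun j => cv j (R1 + 1) (u j) x) / K * (9 * (Cp * Cw) * K)
            = 9 * (Cp * Cw) * (lq (Q x) (fun j => cv j (R1 + 1) (u j) x) / K * K) by ring,
            ENNReal.div_mul_cancel hK0 hK1]
      _ ≤ lq (Q x) (fun j => cv j (R1 + 1) (u j) x) / K * D := by
          apply mul_le_mul_right
          rw [hD]
          exact le_self_add
  calc (Gφ x / (l * C)) ^ (p x).toReal
      = ((Gφ x / (l * C)) ^ r) ^ ((p x).toReal / r) := by
        rw [← ENNReal.rpow_mul, mul_div_cancel₀ _ hr0.ne']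
    _ ≤ (lq (Q x) (fun j => cv j (R1 + 1) (u j) x) / K) ^ ((p x).toReal / r) := by
        apply ENNReal.rpow_le_rpow key
        positivity

end Pool.Agent.H25.VT.FIN
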