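import Pool.Agent.H25.VT.Base

/-!
# MP_2116eb_an: statements of the parts (swarm VT)
-/

set_option autoImplicit false

open MeasureTheory
open scoped ENNReal NNReal SchwartzMap FourierTransform

namespace Pool.Agent.H25.VT

/-- `η_{j,m} (x) = 2^{jn} (1 + 2^j |x|)^(-m)`. -/
noncomputable def eta {n : ℕ} (j : ℕ) (m : ℝ) (x : E n) : ℝ≥0∞ :=
  ENNReal.ofReal ((2 : ℝ) ^ (j * n) * (1 + (2 : ℝ) ^ j * ‖x‖) ^ (-m))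

/-- Convolution with `η_{j,m}`. -/
noncomputable def cv {n : ℕ} (j : ℕ) (m : ℝ) (f : E n → ℝ≥0∞) (x : E n) : ℝ≥0∞ :=
  ∫⁻ y, eta j m (x - y) * f y

/-- The centred maximal function (open balls). -/
noncomputable def MM {n : ℕ} (f : E n → ℝ≥0∞) (x : E n) : ℝ≥0∞ :=
  ⨆ (t : ℝ) (_ : 0 < t), (volume (Metric.ball x t))⁻¹ * ∫⁻ y in Metric.ball x t, f y

/-- MEAS: the maximal function is measurable (it is lower semicontinuous). -/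
def S_MEAS : Prop := ∀ (n : ℕ) (f : E n → ℝ≥0∞), Measurable f → Measurable (MM f)

/-- HL: Hardy-Littlewood, strong type `(s,s)`. -/
def S_HL : Prop := ∀ (n : ℕ) (s : ℝ), 1 ≤ n → 1 < s → ∃ C : ℝ≥0∞, C ≠ ∞ ∧
  ∀ f : E n → ℝ≥0∞, Measurable f → ∫⁻ x, MM f x ^ s ≤ C * ∫⁻ x, f x ^ s

/-- KER: convolution with `η_{j,m}`, `m > n`, is dominated by the maximal function. -/
def S_KER : Prop := ∀ (n : ℕ) (m : ℝ), 1 ≤ n → (n : ℝ) < m → ∃ C : ℝ≥0∞, C ≠ ∞ ∧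
  ∀ (j : ℕ) (f : E n → ℝ≥0∞), Measurable f → ∀ x, cv j m f x ≤ C * MM f x

/-- VM1: pointwise estimate for functions with values in `{0} ∪ [1,∞]`. -/
def S_VM1 : Prop := ∀ (n : ℕ) (a : E n → ℝ), 1 ≤ n → LogHolderLoc a → (∀ x, 1 ≤ a x) →
  ∃ C : ℝ≥0∞, C ≠ ∞ ∧ ∀ f : E n → ℝ≥0∞, Measurable f → (∀ x, f x = 0 ∨ 1 ≤ f x) →
    ∫⁻ x, f x ^ a x ≤ 1 → ∀ x, MM f x ^ a x ≤ C * MM (fun y => f y ^ a y) x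

/-- VM2: comparison with the constant exponent at infinity, for numbers in `[0,1]`. -/
def S_VM2 : Prop := ∀ (n : ℕ) (P : E n → ℝ) (a b c Pinf : ℝ), 1 ≤ n → 1 < a →
  (∀ x, a ≤ P x ∧ P x ≤ b) → a ≤ Pinf → Pinf ≤ b →
  (∀ x : E n, |P x - Pinf| ≤ c / Real.log (Real.exp 1 + ‖x‖)) →
  ∃ (C : ℝ≥0∞) (w : E n → ℝ≥0∞), C ≠ ∞ ∧ Measurable w ∧ ∫⁻ x, w x ≤ C ∧
    ∀ (t : ℝ≥0∞) (x : E n), t ≤ 1 → t ^ P x ≤ C * t ^ Pinf + w x ∧ t ^ Pinf ≤ C * t ^ P x + w x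

/-- PINF: the limit exponent lies between the bounds. -/
def S_PINF : Prop := ∀ (n : ℕ) (P : E n → ℝ) (a b c Pinf : ℝ), 1 ≤ n →
  (∀ x, a ≤ P x ∧ P x ≤ b) →
  (∀ x : E n, |P x - Pinf| ≤ c / Real.log (Real.exp 1 + ‖x‖)) → a ≤ Pinf ∧ Pinf ≤ b

/-- VM: the maximal operator on `L_{P(·)}` (modular form). -/
def S_VM : Prop := ∀ (n : ℕ) (P : E n → ℝ) (a b : ℝ), 1 ≤ n → LogHolder P → 1 < a →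
  (∀ x, a ≤ P x ∧ P x ≤ b) → ∃ K : ℝ≥0∞, K ≠ 0 ∧ K ≠ ∞ ∧
    ∀ f : E n → ℝ≥0∞, Measurable f → ∫⁻ x, f x ^ P x ≤ 1 → ∫⁻ x, (MM f x / K) ^ P x ≤ 1

/-- LIP: log-Hölder continuity is preserved by Lipschitz functions. -/
def S_LIP : Prop := ∀ (n : ℕ) (g : E n → ℝ) (h : ℝ → ℝ) (L : ℝ≥0), LipschitzWith L h →
  LogHolder g → LogHolder (fun x => h (g x))

/-- CONJ: the conjugate exponent is log-Hölder. -/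
def S_CONJ : Prop := ∀ (n : ℕ) (P : E n → ℝ) (a b : ℝ), LogHolder P → 1 < a →
  (∀ x, a ≤ P x ∧ P x ≤ b) → LogHolder (fun x => P x / (P x - 1))

/-- DUAL: the endpoint `q = 1` of the convolution inequality. -/
def S_DUAL : Prop := ∀ (n : ℕ) (P : E n → ℝ) (a b m : ℝ), 1 ≤ n → LogHolder P → 1 < a →
  (∀ x, a ≤ P x ∧ P x ≤ b) → (n : ℝ) < m → ∃ K : ℝ≥0∞, K ≠ 0 ∧ K ≠ ∞ ∧
    ∀ (F : E n → ℝ≥0∞) (B : ℕ → E n → ℝ≥0∞), Measurable F → (∀ j, Measurable (B j)) →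
      (∀ x, ∑' j, B j x ≤ 3) → ∫⁻ x, F x ^ P x ≤ 1 →
      ∫⁻ x, ((∑' j, cv j m (fun y => F y * B j y) x) / K) ^ P x ≤ 1

/-- FRZ: freezing of log-Hölder exponents at scale `2^(-j)`. -/
def S_FRZ : Prop := ∀ (n : ℕ) (g : E n → ℝ), LogHolderLoc g → ∃ C R : ℝ, 1 ≤ C ∧ 0 ≤ R ∧
  ∀ (j : ℕ) (x y : E n),
    (2 : ℝ) ^ ((j : ℝ) * |g x - g y|) ≤ C * (1 + (2 : ℝ) ^ j * ‖x - y‖) ^ R

/-- INT: the interpolation step.  If `u_j ≤ F B_j^θ(y)`, `2^(-j) ≤ B_j ≤ 1`, then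
`η_{j,m} * u_j (x) ≤ C (η_{j,m-R} * F)^(1-θ(x)) (η_{j,m-R} * (F B_j))^θ(x)`. -/
def S_INT : Prop := ∀ (n : ℕ) (θ : E n → ℝ), LogHolderLoc θ → (∀ x, 0 ≤ θ x ∧ θ x < 1) →
  ∃ (C : ℝ≥0∞) (R : ℝ), C ≠ ∞ ∧ 0 ≤ R ∧ ∀ (m : ℝ) (j : ℕ) (u F B : E n → ℝ≥0∞),
    Measurable F → Measurable B → (∀ y, ENNReal.ofReal ((2 : ℝ)⁻¹ ^ j) ≤ B y ∧ B y ≤ 1) →
    (∀ y, u y ≤ F y * B y ^ θ y) → ∀ x,
      cv j m u x ≤ C * ((cv j (m - R) F x) ^ (1 - θ x)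
        * (cv j (m - R) (fun y => F y * B y) x) ^ θ x)

/-- DEC: the decomposition `u_j ≤ F B_j^{1/Q}` with `F = ‖u‖_{ℓ_Q}`. -/
def S_DEC : Prop := ∀ (n : ℕ) (Q : E n → ℝ≥0∞), Measurable Q → (∀ x, 1 ≤ Q x) →
  ∀ u : ℕ → E n → ℝ≥0∞, (∀ j, Measurable (u j)) →
    Measurable (fun x => lq (Q x) (fun j => u j x)) ∧
    ∃ B : ℕ → E n → ℝ≥0∞, (∀ j, Measurable (B j)) ∧
      (∀ j y, ENNReal.ofReal ((2 : ℝ)⁻¹ ^ j) ≤ B j y ∧ B j y ≤ 1) ∧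
      (∀ x, ∑' j, B j x ≤ 3) ∧
      ∀ j x, u j x ≤ lq (Q x) (fun j => u j x) * B j x ^ ((Q x)⁻¹).toReal

/-- MAIN: the convolution inequality in `L_{P(·)}(ℓ_{Q(·)})`, `Q` may take the value `∞` and may
be unbounded. -/
def S_MAIN : Prop := ∀ (n : ℕ) (P : E n → ℝ) (Q : E n → ℝ≥0∞) (a b : ℝ) (a' : ℝ≥0∞), 1 ≤ n →
  LogHolder P → 1 < a → (∀ x, a ≤ P x ∧ P x ≤ b) →
  Measurable Q → LogHolder (fun x => ((Q x)⁻¹).toReal) → 1 < a' → (∀ x, a' ≤ Q x) →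
  ∃ R : ℝ, 0 ≤ R ∧ ∀ m : ℝ, R < m → ∃ K : ℝ≥0∞, K ≠ 0 ∧ K ≠ ∞ ∧
    ∀ u : ℕ → E n → ℝ≥0∞, (∀ j, Measurable (u j)) →
      ∫⁻ x, lq (Q x) (fun j => u j x) ^ P x ≤ 1 →
      ∫⁻ x, (lq (Q x) (fun j => cv j m (u j) x) / K) ^ P x ≤ 1

/-- RT: the `r`-trick for functions reproduced by a kernel at scale `2^(-i)`. -/
def S_RT : Prop := ∀ (n : ℕ) (r m : ℝ) (A : ℕ → ℝ), 1 ≤ n → 0 < r → r ≤ 1 → 0 ≤ m →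
  ∃ C : ℝ≥0∞, C ≠ ∞ ∧ ∀ (i : ℕ) (K g : E n → ℂ), Continuous K → Continuous g →
    (∀ (M : ℕ) (x : E n), ‖K x‖ ≤ A M * ((2 : ℝ) ^ (i * n) * (1 + (2 : ℝ) ^ i * ‖x‖) ^ (-(M : ℝ)))) →
    (∃ (C' : ℝ) (N : ℕ), ∀ x, ‖g x‖ ≤ C' * (1 + ‖x‖) ^ N) →
    (∀ x, g x = ∫ z, K (x - z) * g z) →
    ∀ x, (cv i (m / r + n + 1) (fun z => ‖g z‖ₑ) x) ^ r ≤ C * cv i m (fun z => ‖g z‖ₑ ^ r) x

/-- EXC: a tempered distribution may be exchanged with the integral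
`b (𝓕⁻ u) = ∫ u (x) b e_x dx`. -/
def S_EXC : Prop := ∀ (n : ℕ) (F : 𝓢'(E n, ℂ)) (b : 𝓢(E n, ℂ)),
  Continuous (fun x : E n => F (SchwartzMap.smulLeftCLM ℂ (ch x) b)) ∧
  (∃ (C : ℝ) (N : ℕ), ∀ x : E n, ‖F (SchwartzMap.smulLeftCLM ℂ (ch x) b)‖ ≤ C * (1 + ‖x‖) ^ N) ∧
  ∀ u : 𝓢(E n, ℂ), ∫ x, F (SchwartzMap.smulLeftCLM ℂ (ch x) b) * u x
    = F (SchwartzMap.smulLeftCLM ℂ ((𝓕⁻ u : 𝓢(E n, ℂ)) : E n → ℂ) b)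

/-- KB: kernel bounds. -/
def S_KB : Prop := ∀ (n : ℕ) (φ : 𝓢(E n, ℂ)), ∃ A : ℕ → ℝ,
  (∀ (j M : ℕ) (x : E n), ‖(𝓕⁻ (res φ j) : 𝓢(E n, ℂ)) x‖
      ≤ A M * ((2 : ℝ) ^ (j * n) * (1 + (2 : ℝ) ^ j * ‖x‖) ^ (-(M : ℝ)))) ∧
  ∀ (j M : ℕ) (x : E n), ‖(𝓕⁻ (dil φ (j + 1)) : 𝓢(E n, ℂ)) x‖
      ≤ A M * ((2 : ℝ) ^ (j * n) * (1 + (2 : ℝ) ^ j * ‖x‖) ^ (-(M : ℝ)))

/-- ALG: supports and telescoping. -/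
def S_ALG : Prop := ∀ (n : ℕ) (φ ψ : 𝓢(E n, ℂ)), Admissible φ → Admissible ψ →
  (∀ (j : ℕ) (ξ : E n), res φ j ξ = ∑ i ∈ Finset.Icc (j - 1) (j + 1), res φ j ξ * res ψ i ξ) ∧
  ∀ (i : ℕ) (ξ : E n), res ψ i ξ = dil φ (i + 1) ξ * res ψ i ξ

/-- CONV: the pieces for `φ` in terms of the pieces for `ψ`. -/
def S_CONV : Prop := ∀ (n : ℕ) (φ ψ : 𝓢(E n, ℂ)), Admissible φ → Admissible ψ →
  ∀ f : 𝓢'(E n, ℂ),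
  (∀ (j : ℕ) (x : E n), pieceFn φ f j x = ∑ i ∈ Finset.Icc (j - 1) (j + 1),
      ∫ z, (𝓕⁻ (res φ j) : 𝓢(E n, ℂ)) (x - z) * pieceFn ψ f i z) ∧
  ∀ (i : ℕ) (x : E n), pieceFn ψ f i x =
      ∫ z, (𝓕⁻ (dil φ (i + 1)) : 𝓢(E n, ℂ)) (x - z) * pieceFn ψ f i z

/-- REP: `pieceFn` represents `piece`. -/
def S_REP : Prop := ∀ (n : ℕ) (φ : 𝓢(E n, ℂ)) (f : 𝓢'(E n, ℂ)) (j : ℕ),
  Represents (pieceFn φ f j) (piece φ f j)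

/-- PW: pointwise bound of the pieces for `φ` by the pieces for `ψ`. -/
def S_PW : Prop := ∀ (n : ℕ) (φ ψ : 𝓢(E n, ℂ)) (r m : ℝ), 1 ≤ n → Admissible φ → Admissible ψ →
  0 < r → r ≤ 1 → 0 ≤ m → ∃ C : ℝ≥0∞, C ≠ ∞ ∧ ∀ (f : 𝓢'(E n, ℂ)) (j : ℕ) (x : E n),
    ‖pieceFn φ f j x‖ₑ ^ r ≤
      C * ∑ i ∈ Finset.Icc (j - 1) (j + 1), cv i m (fun z => ‖pieceFn ψ f i z‖ₑ ^ r) x

/-- WT: moving the weight `2^{j s(x)}` inside the convolution. -/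
def S_WT : Prop := ∀ (n : ℕ) (s : E n → ℝ) (r : ℝ), LogHolderLoc s → 0 < r →
  ∃ (C : ℝ≥0∞) (R : ℝ), C ≠ ∞ ∧ 0 ≤ R ∧
    ∀ (m : ℝ) (j i : ℕ) (g : E n → ℝ≥0∞) (x : E n), i ∈ Finset.Icc (j - 1) (j + 1) →
      ENNReal.ofReal (2 ^ ((j : ℝ) * s x)) ^ r * cv i m g x ≤
        C * cv i (m - R) (fun z => ENNReal.ofReal (2 ^ ((i : ℝ) * s z)) ^ r * g z) x

/-- LQ: facts on `lq`. -/
def S_LQ : Prop :=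
  (∀ (q : ℝ≥0∞) (a b : ℕ → ℝ≥0∞), 0 < q → (∀ j, a j ≤ b j) → lq q a ≤ lq q b) ∧
  (∀ (q : ℝ≥0∞) (c : ℝ≥0∞) (a : ℕ → ℝ≥0∞), 0 < q → lq q (fun j => c * a j) = c * lq q a) ∧
  (∀ (q : ℝ≥0∞) (r : ℝ) (a : ℕ → ℝ≥0∞), 0 < q → 0 < r →
      lq (q / ENNReal.ofReal r) (fun j => a j ^ r) = lq q a ^ r) ∧
  ∀ (q : ℝ≥0∞) (a : ℕ → ℝ≥0∞), 1 ≤ q →
      lq q (fun j => ∑ i ∈ Finset.Icc (j - 1) (j + 1), a i) ≤ 9 * lq q a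

/-- EXPO: consequences of the hypotheses on the exponent `p`. -/
def S_EXPO : Prop := ∀ (n : ℕ) (p : E n → ℝ≥0∞) (c : ℝ), 1 ≤ n → 0 < c → Measurable p →
  (∀ x, ENNReal.ofReal c < p x) → LogHolder (fun x => ((p x)⁻¹).toReal) → essSup p volume < ∞ →
  (∀ x, p x < ∞) ∧ ∀ r : ℝ, 0 < r → r < c → ∃ b : ℝ,
    LogHolder (fun x => (p x).toReal / r) ∧ ∀ x, c / r ≤ (p x).toReal / r ∧ (p x).toReal / r ≤ b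

/-- FIN: one half of the theorem. -/
def S_FIN : Prop := ∀ (n : ℕ) (p q : E n → ℝ≥0∞) (s : E n → ℝ) (c : ℝ), 1 ≤ n → 0 < c →
  Measurable p → Measurable q → (∀ x, ENNReal.ofReal c < p x) → (∀ x, ENNReal.ofReal c < q x) →
  LogHolder (fun x => ((p x)⁻¹).toReal) → LogHolder (fun x => ((q x)⁻¹).toReal) →
  essSup p volume < ∞ → LogHolderLoc s →
  ∀ φ ψ : 𝓢(E n, ℂ), Admissible φ → Admissible ψ →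
    ∃ C : ℝ≥0∞, C ≠ 0 ∧ C ≠ ∞ ∧ ∀ f : 𝓢'(E n, ℂ), tl p q s φ f ≤ C * tl p q s ψ f

end Pool.Agent.H25.VT
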