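import Mathlib

/-!
# MP_2116eb_an: the definitions used by the final statement

Variable exponent Triebel-Lizorkin spaces on a finite dimensional Euclidean space `V`
(the theorem is stated for `V = ℝⁿ` with the Euclidean norm).
-/

set_option autoImplicit false

open MeasureTheory
open scoped ENNReal SchwartzMap FourierTransform

namespace Pool.Agent.H25.VT.St

section dilations

variable (W : Type) [NormedAddCommGroup W] [NormedSpace ℝ W]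

/-- Multiplication by `2^(-k)` as a linear equivalence. -/
noncomputable def dilE (k : ℕ) : W ≃L[ℝ] W :=
  ContinuousLinearEquiv.smulLeft (Units.mk0 ((2 : ℝ)⁻¹ ^ k) (by positivity))

/-- `dilate W k φ (x) = φ (2^(-k) x)`. -/
noncomputable def dilate (k : ℕ) (φ : 𝓢(W, ℂ)) : 𝓢(W, ℂ) :=
  SchwartzMap.compCLMOfContinuousLinearEquiv ℂ (dilE W k) φ

end dilations

variable {V : Type} [NormedAddCommGroup V] [InnerProductSpace ℝ V] [FiniteDimensional ℝ V]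
  [MeasurableSpace V] [BorelSpace V]

/-- `g` is locally log-Hölder continuous:
`|g x - g y| ≤ c / log (e + 1 / |x - y|)` for all `x, y`. -/
def LogHolderLoc (g : V → ℝ) : Prop :=
  Continuous g ∧ ∃ c : ℝ, ∀ x y : V,
    |g x - g y| ≤ c / Real.log (Real.exp 1 + 1 / ‖x - y‖)

/-- `g` is globally log-Hölder continuous: locally, and
`|g x - g∞| ≤ c / log (e + |x|)` for some real `g∞`. -/
def LogHolder (g : V → ℝ) : Prop :=
  LogHolderLoc g ∧ ∃ c ginf : ℝ, ∀ x : V, |g x - ginf| ≤ c / Real.log (Real.exp 1 + ‖x‖)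

/-- `p` is an exponent (measurable, with values in `(c, ∞]` for some `c > 0`) with `1/p` globally
log-Hölder continuous. -/
def LogExponent (p : V → ℝ≥0∞) : Prop :=
  Measurable p ∧ (∃ c : ℝ, 0 < c ∧ ∀ x, ENNReal.ofReal c < p x) ∧
    LogHolder (fun x => ((p x)⁻¹).toReal)

/-- The modular of `L_{p(·)}` (for functions with values in `[0,∞]`):
`∫_{p < ∞} f^p + esssup_{p = ∞} f`. -/
noncomputable def modular (p : V → ℝ≥0∞) (f : V → ℝ≥0∞) : ℝ≥0∞ :=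
  (∫⁻ x in {x | p x < ∞}, f x ^ (p x).toReal)
    + essSup (Set.indicator {x | p x = ∞} f) volume

/-- The quasi-norm of `L_{p(·)}`: `inf {l > 0 : modular (f / l) ≤ 1}` (`∞` if there is no such
finite `l`). -/
noncomputable def lnorm (p : V → ℝ≥0∞) (f : V → ℝ≥0∞) : ℝ≥0∞ :=
  sInf {l : ℝ≥0∞ | 0 < l ∧ l < ∞ ∧ modular p (fun x => f x / l) ≤ 1}

/-- The quasi-norm of `ℓ_q`, `0 < q ≤ ∞`. -/
noncomputable def lq (q : ℝ≥0∞) (a : ℕ → ℝ≥0∞) : ℝ≥0∞ :=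
  if q = ∞ then ⨆ j, a j else (∑' j, a j ^ q.toReal) ^ (1 / q.toReal)

/-- Admissible generators of a resolution of unity. -/
def Admissible (φ : 𝓢(V, ℂ)) : Prop :=
  (∀ x : V, ‖x‖ ≤ 1 → φ x = 1) ∧ ∀ x : V, 2 < ‖x‖ → φ x = 0

/-- `dil φ k (x) = φ (2^(-k) x)`. -/
noncomputable def dil (φ : 𝓢(V, ℂ)) (k : ℕ) : 𝓢(V, ℂ) :=
  dilate V k φ

/-- `φ_0 = φ` and `φ_j (x) = φ (2^(-j) x) - φ (2^(1-j) x)` for `j ≥ 1`. -/
noncomputable def res (φ : 𝓢(V, ℂ)) : ℕ → 𝓢(V, ℂ)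
  | 0 => φ
  | k + 1 => dil φ (k + 1) - dil φ k

/-- The character `ξ ↦ exp (2 π i ⟨ξ, x⟩)`. -/
noncomputable def ch (x : V) (ξ : V) : ℂ :=
  Complex.exp (2 * Real.pi * Complex.I * (inner ℝ ξ x : ℝ))

/-- The tempered distribution `(φ_j f^)^∨ : u ↦ f^ (φ_j u^∨)`. -/
noncomputable def piece (φ : 𝓢(V, ℂ)) (f : 𝓢'(V, ℂ)) (j : ℕ) (u : 𝓢(V, ℂ)) : ℂ :=
  (𝓕 f) (SchwartzMap.smulLeftCLM ℂ (res φ j) (𝓕⁻ u))

/-- The function `(φ_j f^)^∨ : x ↦ f^ (φ_j exp (2 π i ⟨·, x⟩))`. -/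
noncomputable def pieceFn (φ : 𝓢(V, ℂ)) (f : 𝓢'(V, ℂ)) (j : ℕ) (x : V) : ℂ :=
  (𝓕 f) (SchwartzMap.smulLeftCLM ℂ (ch x) (res φ j))

/-- The quasi-norm of `f` in `F^{s(·)}_{p(·),q(·)}` built from `φ`. -/
noncomputable def tl (p q : V → ℝ≥0∞) (s : V → ℝ) (φ : 𝓢(V, ℂ)) (f : 𝓢'(V, ℂ)) : ℝ≥0∞ :=
  lnorm p (fun x => lq (q x) (fun j => ENNReal.ofReal (2 ^ ((j : ℝ) * s x)) * ‖pieceFn φ f j x‖ₑ))

/-- The space `F^{s(·)}_{p(·),q(·)}` built from `φ`. -/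
def TLSpace (p q : V → ℝ≥0∞) (s : V → ℝ) (φ : 𝓢(V, ℂ)) : Set 𝓢'(V, ℂ) :=
  {f | tl p q s φ f < ∞}

/-- The tempered distributions `(φ_j f^)^∨` are given by the functions `pieceFn φ f j`, which are
continuous and polynomially bounded. -/
def PiecesRepresented (φ : 𝓢(V, ℂ)) : Prop :=
  ∀ (f : 𝓢'(V, ℂ)) (j : ℕ), Continuous (pieceFn φ f j) ∧
    (∃ (C : ℝ) (N : ℕ), ∀ x, ‖pieceFn φ f j x‖ ≤ C * (1 + ‖x‖) ^ N) ∧
    ∀ u : 𝓢(V, ℂ), piece φ f j u = ∫ x, pieceFn φ f j x * u x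

/-- The spaces built from `φ` and from `ψ` coincide, with equivalent quasi-norms. -/
def SameSpace (p q : V → ℝ≥0∞) (s : V → ℝ) (φ ψ : 𝓢(V, ℂ)) : Prop :=
  TLSpace p q s φ = TLSpace p q s ψ ∧
    ∃ C : ℝ≥0∞, C ≠ 0 ∧ C ≠ ∞ ∧ ∀ f : 𝓢'(V, ℂ),
      tl p q s φ f ≤ C * tl p q s ψ f ∧ tl p q s ψ f ≤ C * tl p q s φ f

/-- Independence of the resolution of unity. -/
def ResolutionIndependent (p q : V → ℝ≥0∞) (s : V → ℝ) : Prop :=
  ∀ φ ψ : 𝓢(V, ℂ), Admissible φ → Admissible ψ → PiecesRepresented φ ∧ SameSpace p q s φ ψ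

end Pool.Agent.H25.VT.St
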